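import Pool.Agent.Lib.MP_aa40d3_nt.CV.Cyc
import Pool.Agent.Lib.MP_aa40d3_nt.MR.ADefs

/-! A Fuchsian system with a cyclic coordinate; the new points are natural numbers. -/

open Polynomial Matrix
open scoped Polynomial.Bivariate

namespace Pool.Agent.GR.FB

open Pool.Agent.GR.CV

variable {N n : ℕ}

/-- The new points are natural numbers, and all points are distinct. -/
def Nat' {k : ℕ} (t : Fin n → ℂ) (q : Fin k → ℂ) : Prop :=
  Function.Injective (Fin.append t q) ∧ ∀ j, ∃ m : ℕ, q j = m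

theorem Nat'.snoc {k : ℕ} {t : Fin n → ℂ} {q : Fin k → ℂ} (h : Nat' t q) (F : Finset ℂ) :
    ∃ z, z ∉ F ∧ Nat' t (Fin.snoc q z : Fin (k + 1) → ℂ) := by
  classical
  obtain ⟨z, ⟨m, rfl⟩, hz⟩ := (Set.infinite_range_of_injective
    (Nat.cast_injective (R := ℂ))).exists_notMem_finset (F ∪ Finset.univ.image (Fin.append t q))
  rw [Finset.mem_union, not_or] at hz
  refine ⟨m, hz.1, ?_, fun j => ?_⟩
  · rw [Fin.append_snoc]
    exact Fin.snoc_injective_of_injective h.1 fun ⟨i, hi⟩ =>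
      hz.2 (Finset.mem_image.2 ⟨i, Finset.mem_univ i, hi⟩)
  · refine Fin.lastCases ⟨m, by simp⟩ (fun j => ?_) j
    simpa using h.2 j

theorem Nat'.gen {k : ℕ} {t : Fin n → ℂ} {q : Fin k → ℂ} (h : Nat' t q) {M : Finset (Fin n)}
    (hg : Gen M t) : Gen (M.map (Fin.castAddEmb k)) (Fin.append t q) := by
  obtain ⟨B, h1, h2⟩ := hg
  refine ⟨B, fun j => ?_, ?_⟩
  · refine Fin.addCases (fun i hi => ?_) (fun i _ => ?_) j
    · rw [Fin.append_left]
      exact h1 i fun h3 => hi (Finset.mem_map_of_mem (Fin.castAddEmb k) h3)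
    · obtain ⟨m, hm⟩ := h.2 i
      rw [Fin.append_right, hm]
      exact natCast_mem B m
  · choose f hf hf' using fun i : M.map (Fin.castAddEmb k) => Finset.mem_map.1 i.2
    have h3 := h2.comp (fun i => (⟨f i, hf i⟩ : M)) fun i j e =>
      Subtype.ext (by rw [← hf' i, ← hf' j, show f i = f j from congrArg Subtype.val e])
    convert h3 using 1
    funext i
    rw [← hf' i]
    exact Fin.append_left t q _

theorem exists_pts' {t : Fin n → ℂ} (ht : Function.Injective t) {v : Fin N → ℂ[X]} {m : ℕ}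
    (hv : ∀ w : Fin N → ℂ[X], w ≠ 0 → (∀ a, (w a).degree < m) → ∃ a b, w a * v b ≠ w b * v a) :
    ∃ (k : ℕ) (q : Fin k → ℂ) (lam : Fin k → Fin N → ℂ), k ≤ N * m ∧
      Nat' t q ∧ v ∈ Mod q lam ∧
      ∀ w ∈ Mod q lam, (∀ a, (w a).degree < m) → w = 0 := by
  have key : ∀ (d k : ℕ) (q : Fin k → ℂ) (lam : Fin k → Fin N → ℂ),
      Module.finrank ℂ (cycb_S m q lam) = d → d + k ≤ N * m →
      Nat' t q → v ∈ Mod q lam →
      ∃ (k : ℕ) (q : Fin k → ℂ) (lam : Fin k → Fin N → ℂ), k ≤ N * m ∧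
        Nat' t q ∧ v ∈ Mod q lam ∧
        ∀ w ∈ Mod q lam, (∀ a, (w a).degree < m) → w = 0 := by
    intro d
    induction d using Nat.strong_induction_on with
    | _ d ih =>
    intro k q lam hd hk hq hvm
    by_cases h0 : ∀ w ∈ Mod q lam, (∀ a, (w a).degree < m) → w = 0
    · exact ⟨k, q, lam, by omega, hq, hvm, h0⟩
    push Not at h0
    obtain ⟨w, hw, hdeg, hw0⟩ := h0
    obtain ⟨a, b, hab⟩ := hv w hw0 hdeg
    have hne : w a * v b - w b * v a ≠ 0 := sub_ne_zero.2 hab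
    obtain ⟨z, hz, hind⟩ := hq.snoc (w a * v b - w b * v a).roots.toFinset
    rw [Multiset.mem_toFinset, mem_roots hne, IsRoot.def] at hz
    set l : Fin N → ℂ := Pi.single a ((v b).eval z) - Pi.single b ((v a).eval z) with hl
    have hsum : ∀ u : Fin N → ℂ[X], ∑ c, (u c).eval z * l c = (u a * v b - u b * v a).eval z := by
      intro u
      simp only [hl, Pi.sub_apply, mul_sub, Finset.sum_sub_distrib, Pi.single_apply, mul_ite,
        mul_zero, Finset.sum_ite_eq', Finset.mem_univ, if_true, eval_sub, eval_mul]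
    have hlt : cycb_S m (Fin.snoc q z : Fin (k + 1) → ℂ) (Fin.snoc lam l : Fin (k + 1) → _) <
        cycb_S m q lam := by
      refine lt_of_le_of_ne (fun u hu => (cycb_snoc.1 hu).1) fun he => hz ?_
      have h1 : (fun c => ⟨w c, mem_degreeLT.2 (hdeg c)⟩ : Fin N → degreeLT ℂ m) ∈
          cycb_S m q lam := hw
      rw [← he] at h1
      rw [← hsum]
      exact (cycb_snoc.1 h1).2
    have h2 := Submodule.finrank_lt_finrank_of_lt hlt
    refine ih _ (hd ▸ h2) (k + 1) _ _ rfl (by omega) hind (cycb_snoc.2 ⟨hvm, ?_⟩)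
    rw [hsum, mul_comm (v a), sub_self, eval_zero]
  refine key _ 0 Fin.elim0 Fin.elim0 rfl ?_ ?_ fun j => j.elim0
  · refine (Submodule.finrank_le _).trans_eq ?_
    rw [Module.finrank_pi_fintype, Finset.sum_const, Finset.card_univ, Fintype.card_fin,
      (degreeLTEquiv ℂ m).finrank_eq, Module.finrank_fin_fun, smul_eq_mul]
  · refine ⟨?_, fun j => j.elim0⟩
    rw [Fin.append_elim0]
    exact ht.comp (Fin.cast_injective _)

theorem exists_cyc' [NeZero N] {t : Fin n → ℂ} (ht : Function.Injective t)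
    {A : Fin n → Matrix (Fin N) (Fin N) ℂ} {U : LM N} (hU : MSol (dl t) (pm t A) sL⁻¹ U 0)
    (hN : CV.NF U) : ∃ (k : ℕ) (q : Fin k → ℂ) (A' : Fin (n + k) → Matrix (Fin N) (Fin N) ℂ)
      (G : PM N), Nat' t q ∧ G.det ≠ 0 ∧
      Gau (dl t) (pm t A) (dl (Fin.append t q)) (pm (Fin.append t q) A') 1 G ∧
      GC.Cyc (Fin.append t q) A' ∧
      (∀ i, ∃ g : Matrix (Fin N) (Fin N) ℂ, g.det ≠ 0 ∧ A' (Fin.castAdd k i) * g = g * A i) ∧
      ∀ j, (A' (Fin.natAdd n j)).rank ≤ 1 := by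
  have hinf : ∀ {p : ℂ[X]}, p ≠ 0 → ev sL⁻¹ p ≠ 0 := fun hp => (map_ne_zero_iff _ ev_inv_inj).2 hp
  obtain ⟨w, hw⟩ := exists_cycV (dl_ne t) (pm t A)
  obtain ⟨v, m, hv, h1, h2, h3⟩ := hw.min
  obtain ⟨k, q, lam, hk, hq, h4, h5⟩ := exists_pts' ht h3
  obtain ⟨G, rfl, h6, h7, h8⟩ := exists_modG hk h5 h4 h1 h2
  have hG := mod_bas h5 h6 h7 h8
  obtain ⟨Q, hQ⟩ := mod_gau (D := dl t) (B := pm t A) hG
  have hU' := hQ.msol (hinf (dl_ne t)) (hinf one_ne_zero) (hinf hG.1) hU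
  rw [ga_one, ← dl_append] at hU'
  obtain ⟨A', rfl, -⟩ := ext_inf hq.1 hU' (hN.mul h7 h8)
  have hQ' := hQ
  rw [← dl_append] at hQ'
  refine ⟨k, q, A', G, hq, hG.1, hQ', cyc_of_cycV (CycV.gau hQ' (dl_ne _) hG.1 ?_),
    fun i => ⟨G.map (eval (t i)), mod_det hG ?_, ?_⟩, fun j => ?_⟩
  · rwa [single_one_vecMul]
  · rintro ⟨j, hj⟩
    have : Fin.natAdd n j = Fin.castAdd k i := hq.1 (by simpa using hj)
    have := congrArg Fin.val this
    simp at this
    omega
  · have h9 := mod_old (dl_ne t) hQ (dl_eval t i)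
    have h10 := pm_eval (Fin.append t q) A' (Fin.castAdd k i)
    have h11 := dl_deriv_ne hq.1 (Fin.castAdd k i)
    rw [Fin.append_left] at h10 h11
    rw [h10, pm_eval, Matrix.smul_mul, Matrix.mul_smul, smul_smul] at h9
    refine smul_right_injective _ h11 (h9.trans ?_)
    congr 1
    rw [dl_append, derivative_mul, eval_add, eval_mul, eval_mul, dl_eval, zero_mul, add_zero,
      mul_comm]
  · have h9 := mod_new (dl_ne t) hG hQ j
    have h10 := pm_eval (Fin.append t q) A' (Fin.natAdd n j)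
    rw [Fin.append_right] at h10
    rwa [h10, rank_smul (by simpa using dl_deriv_ne hq.1 (Fin.natAdd n j))] at h9

theorem gen_of_indep {t : Fin n → ℂ} {M : Finset (Fin n)}
    (h : AlgebraicIndependent (IntermediateField.adjoin ℚ {x : ℂ | ∃ j, j ∉ M ∧ x = t j})
      fun i : M => t i) : Gen M t :=
  ⟨(IntermediateField.adjoin ℚ {x : ℂ | ∃ j, j ∉ M ∧ x = t j}).toSubalgebra.toSubring,
    fun j hj => IntermediateField.subset_adjoin ℚ _ ⟨j, hj, rfl⟩, h⟩

theorem d_ne {R : Type} [CommRing R] {r : ℕ} {ι ψ : R →+* ℂ} (hk : RingHom.ker ι ≤ RingHom.ker ψ)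
    {S : CV.Sys R r} (hD : (S.map ψ).D ≠ 0) : (S.map ι).D ≠ 0 := fun h => hD (by
  refine Polynomial.ext fun k => ?_
  have h9 : (S.D.map ι).coeff k = 0 := congrArg (fun p => coeff p k) h
  rw [coeff_map] at h9
  exact (coeff_map ψ k).trans (hk h9))

end Pool.Agent.GR.FB
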