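import Pool.Agent.Lib.MP_aa40d3_nt.FB.Small
import Pool.Agent.Lib.MP_aa40d3_nt.GD.Big
import Pool.Agent.Lib.MP_aa40d3_nt.R2.Defs

/-! The monodromy group of a connected covering with many movable branch points is finite. -/

open Matrix

namespace Pool.Agent.GR.FB

open GC

theorem hur_countP {H : Type} [Group H] {P : H → Bool} (hP : ∀ γ x, P (γ * x * γ⁻¹) = P x)
    {l l' : List H} (h : Hur l l') : l'.countP P = l.countP P := by
  induction h with
  | refl => rfl
  | @left A B x y _ ih =>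
    have e : P (y⁻¹ * x * y) = P x := by simpa using hP y⁻¹ x
    rw [← ih]
    simp only [List.countP_append, List.countP_cons, e]
    omega
  | @right A B x y _ ih =>
    rw [← ih]
    simp only [List.countP_append, List.countP_cons, hP]
    omega

theorem hur_cntP {G : Type} [Group G] {d : ℕ} (b : BS G d) {l l' : List (G × Mk)} (h : Hur l l') :
    cntP b l' = cntP b l :=
  hur_countP (fun γ x => by
    classical
    exact decide_eq_decide.2 (and_congr (hura_conj b γ.1 x.1).not (mo_conj γ x))) h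

theorem cntP_le {G : Type} [Group G] {d : ℕ} (b : BS G d) (l : List (G × Mk)) :
    cntP b l ≤ b.cnt (l.map Prod.fst) := by
  rw [BS.cnt, List.countP_map]
  exact List.countP_mono_left fun x _ h => by
    simp only [Function.comp, decide_eq_true_eq] at h ⊢
    exact h.1

theorem finite_big2P (r : ℕ) (hr : 1 ≤ r) : ∃ k : ℕ, ∀ (d m : ℕ) (G : Type) [Group G]
    (σ : G →* Mt m) (b : BR σ d) (l : List (G × Mk)), r + 2 ≤ d → gen (l.map Prod.fst) = ⊤ →
    b.bs.Trans ⊤ Finset.univ → (∀ i, (b.e i).rank = r) →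
    (∀ x ∈ l.map Prod.fst, (σ x - 1).rank ≤ r) → (σ (l.map Prod.fst).prod - 1).rank ≤ r →
    FinQ l → 2 * d + k ≤ cntP b.bs l → Finite G := by
  obtain ⟨k, hk⟩ := finite_small2P r hr
  refine ⟨k, fun d m G _ σ b l hd hg ht hrk hl hp hf hc => ?_⟩
  have h0 : ∀ i, b.e i ≠ 0 := fun i e => by
    have := hrk i
    rw [e, Matrix.rank_zero] at this
    omega
  have hok : ∀ x ∈ l.map Prod.fst, b.bs.Ok r x := fun x hx => b.ok hr hrk (hl x hx)
  obtain ⟨S₀, h1, h2⟩ := (b.ok hr hrk hp).supp hr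
  obtain ⟨c, rfl⟩ := Nat.exists_eq_add_of_le hd
  obtain ⟨S, -, hS, A, B, h3, h4, h5, h6⟩ := reduce hr h1 c Finset.univ (l.map Prod.fst) (by simp)
    hok (fun x _ j hj => absurd (Finset.mem_univ j) hj) (hg ▸ ht) h2
  rw [hg] at h5
  obtain ⟨l₁, h7, h8⟩ := Hur.lift (MonoidHom.fst G Mk) h3
  obtain ⟨A₁, B₁, rfl, hA, hB⟩ := List.map_eq_append_iff.1 h8
  replace hA : A₁.map Prod.fst = A := hA
  replace hB : B₁.map Prod.fst = B := hB
  have h9 : cntP b.bs l ≤ cntP b.bs A₁ + 2 * c := by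
    have e1 := hur_cntP b.bs h7
    have e2 := h3.cnt b.bs
    have e3 := cntP_le b.bs B₁
    rw [hB] at e3
    rw [cntP, List.countP_append] at e1
    rw [BS.cnt, List.countP_append] at e2
    change cntP b.bs A₁ + cntP b.bs B₁ = _ at e1
    change b.bs.cnt A + b.bs.cnt B = _ at e2
    omega
  obtain ⟨i, hi⟩ : S.Nonempty := Finset.card_pos.1 (by omega)
  suffices Finite (gen A) from BS.finite_of_agree ht hi h5
  obtain ⟨m', σ', b', k1, k2, k3, k4, k5, -⟩ := b.restrict (gen A) h4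
  let l' : List (gen A × Mk) := A₁.pmap (fun x hx => (⟨x.1, hx⟩, x.2))
    fun x hx => mem_gen (hA ▸ List.mem_map_of_mem hx)
  have hl' : l'.map (pm (gen A).subtype) = A₁ := by
    simp only [l', List.map_pmap]
    exact (List.pmap_eq_map _).trans (List.map_id' A₁)
  have hl'' : (l'.map Prod.fst).map (gen A).subtype = A := by rw [← map_pm_fst, hl', hA]
  have hm : ∀ x : gen A, x ∈ l'.map Prod.fst ↔ x.val ∈ A := fun x =>
    (List.mem_map_of_injective (gen A).subtype_injective).symm.trans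
      (iff_of_eq (congrArg (fun L => x.val ∈ L) hl''))
  have hπ : ∀ y, b'.bs.π y = b.bs.π y.val := k2
  have hK : ∀ y i, y ∈ b'.bs.K i ↔ y.val ∈ b.bs.K i := k3
  refine hk m' (k1.trans ?_) _ (gen A) σ' b' S l' (k5 i hi (h0 i)) hS ?_ (fun x hx => ?_)
    (fun x _ j hj => (hK x j).2 (h4 x x.2 j hj)) (fun u hu v hv => ?_) k4
    (FinQ.of_map (gen A).subtype_injective (hl'.symm ▸ (hf.hur h7).left)) ?_
  · simp only [hrk, Finset.sum_const, hS, smul_eq_mul, le_refl]
  · apply Subgroup.map_injective (gen A).subtype_injective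
    rw [← MonoidHom.range_eq_map, Subgroup.range_subtype]
    refine (MonoidHom.map_closure _ _).trans (congrArg Subgroup.closure ?_)
    ext x
    exact ⟨fun ⟨y, hy, e⟩ => e ▸ (hm y).1 hy, fun hx => ⟨⟨x, mem_gen hx⟩, (hm _).2 hx, rfl⟩⟩
  · rcases h3.all (P := b.bs.Ok r) (fun γ x h => BS.Ok.conj h γ) hok x
        (List.mem_append_left _ ((hm x).1 hx)) with ⟨u, v, e1, e2, e3, e4⟩ | ⟨e1, T, e2, e3⟩
    · exact Or.inl ⟨u, v, e1, (hπ x).trans e2, Subtype.ext e3, fun w a1 a2 =>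
        (hK x w).2 (e4 w a1 a2)⟩
    · exact Or.inr ⟨(hπ x).trans e1, T, e2, fun w a1 => (hK x w).2 (e3 w a1)⟩
  · obtain ⟨x, hx, e⟩ := h5.trans_of ht (Finset.subset_univ S) u hu v hv
    exact ⟨⟨x, hx⟩, Subgroup.mem_top _, by rw [hπ]; exact e⟩
  · have : cntP b'.bs l' = cntP b.bs A₁ := by
      conv_rhs => rw [← hl', cntP, List.countP_map]
      exact List.countP_congr fun x _ => by
        simp only [Function.comp, decide_eq_true_eq, pm_fst, hπ]
        exact Iff.rfl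
    omega

theorem adj_of_lower {n : ℕ} {ρ : Fin n → ℝ} {L₁ L₂ : List (Fin n)} {a c : Fin n}
    (h : LowerL ρ (L₁ ++ a :: c :: L₂)) : Adj ρ a c := by
  obtain ⟨h1, h2⟩ := h
  rw [List.pairwise_append, List.pairwise_cons, List.pairwise_cons] at h1
  obtain ⟨-, ⟨p1, p2, -⟩, p3⟩ := h1
  refine ⟨p1 c List.mem_cons_self, fun e he => not_lt.1 fun h3 => ?_⟩
  have h4 := h2 c (by simp) e h3
  simp only [List.mem_append, List.mem_cons] at h4
  rcases h4 with h4 | rfl | rfl | h4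
  · exact he.not_gt (p3 e h4 a List.mem_cons_self)
  · exact he.false
  · exact h3.false
  · exact h3.not_gt (p2 e h4)

theorem group_finiteP (r : ℕ) (hr : 1 ≤ r) : ∃ k : ℕ, ∀ (d n : ℕ) (Mov : Finset (Fin n))
    (g : Fin n → GLr (r * d)) (ε : Fin n → Fin (r * d) → ℂ) (ρ : Fin n → ℝ), r + 2 ≤ d →
    Function.Injective ρ → LoopsM Mov ρ g ε → LoopsP Mov ρ g ε → (∀ a, IsOfFinOrder (g a).val) →
    (∀ a, ((g a).val - 1).rank ≤ r) →
    (∀ L, LowerL ρ L → (∀ a, a ∈ L) → (((L.map g).prod).val - 1).rank ≤ r) →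
    ∀ Z : Subalgebra ℂ (Mt (r * d)),
      SimpZ (incl (Subgroup.closure (Set.range g))) Z →
      (∀ γ ∈ Subgroup.closure (Set.range g), ∀ x ∈ Z, γ.val * x * (γ⁻¹).val ∈ Z) → CommA Z →
      Module.finrank ℂ Z = d → ∀ M : Finset (Fin n), M ⊆ Mov → 2 * d + k ≤ M.card →
      (∀ a ∈ M, ∃ x ∈ Z, (g a).val * x ≠ x * (g a).val) →
      Finite (Subgroup.closure (Set.range g)) := by
  classical
  obtain ⟨k, hk⟩ := finite_big2P r hr
  refine ⟨k, fun d n Mov g ε ρ hd hρ ho hoP hfo hrk hinf Z hI hZ hc hfr M hMM hM hMa => ?_⟩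
  obtain ⟨L0, h1, h2⟩ := exists_lowerL hρ Finset.univ fun _ _ _ _ => Finset.mem_univ _
  have h0 : L0.Nodup := h1.1.imp fun hab e => hab.ne (congrArg _ e)
  have hall : ∀ a, a ∈ L0 := fun a => List.mem_toFinset.1 (h2 ▸ Finset.mem_univ a)
  have hS := ho.loopsS h1
  set Γ := Subgroup.closure (Set.range g) with hΓ
  let g' : Fin n → Γ := fun a => ⟨g a, Subgroup.subset_closure ⟨a, rfl⟩⟩
  have hg : Subgroup.closure (Set.range g') = ⊤ := by
    apply Subgroup.map_injective Γ.subtype_injective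
    rw [MonoidHom.map_closure, ← Set.range_comp, ← MonoidHom.range_eq_map, Subgroup.range_subtype]
    rfl
  have hl : ∀ x, IsLoop Mov L0 g' x → IsOfFinOrder x := fun x hx => by
    obtain ⟨l, R, h, k1, k2, k3⟩ := hx.map Γ.subtype
    have k4 := (hS l R h k1 k2).1
    rw [← k3] at k4
    exact (incl_inj Γ).isOfFinOrder_iff.1 k4
  have hpf : PairF Mov L0 g' := fun L₁ L₂ a c h hs hm => by
    obtain ⟨μ, k1, k2, k3⟩ := (hs.map Γ.subtype).low h1
    have k4 := (hoP μ k1 a c (adj_of_lower k2) hm).1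
    rw [show mvTL μ ρ g = Γ.subtype ∘ h from k3] at k4
    exact (incl_inj Γ).isOfFinOrder_iff.1 k4
  have hZ' : InvR (incl Γ) Z := fun γ => hZ γ γ.2
  have : NeZero (r * d) := ⟨Nat.mul_ne_zero (by omega) (by omega)⟩
  have := hI.semi hZ'
  obtain ⟨e, e0, e1, e2, e3, e4⟩ := exists_idemS hc hfr
  obtain ⟨b, rfl⟩ := exists_BR (incl_inj Γ) hZ' e0 e1 e2 e3 e4
  have hE := hI.trans hZ' b e0 e1
  have hf := finQ_of_fin h0 (fun a => (incl_inj Γ).isOfFinOrder_iff.1
    (show IsOfFinOrder (incl Γ (g' a)) from hfo a)) hpf hl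
  have hfst : (L0.map (mkd Mov g')).map Prod.fst = L0.map g' := by
    rw [List.map_map]
    rfl
  have hp : ((L0.map g').prod).val = (L0.map g).prod := by
    rw [← Γ.coe_subtype, map_list_prod, List.map_map]
    rfl
  refine hk d _ Γ (incl Γ) b (L0.map (mkd Mov g')) hd ?_ hE (b.rank_eq hE rfl)
    (fun x hx => ?_) ?_ hf (hM.trans ?_)
  · rw [hfst, ← hg, gen]
    congr 1
    ext x
    simp [hall]
  · rw [hfst] at hx
    obtain ⟨a, -, rfl⟩ := List.mem_map.1 hx
    exact hrk a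
  · rw [hfst, incl_apply, hp]
    exact hinf L0 h1 hall
  · rw [cntP, List.countP_map, List.countP_eq_length_filter,
      ← List.toFinset_card_of_nodup (h0.filter _)]
    refine Finset.card_le_card fun a ha => ?_
    obtain ⟨x, hx, h3⟩ := hMa a ha
    refine List.mem_toFinset.2 (List.mem_filter.2 ⟨hall a, (@decide_eq_true_iff _ (_)).2
      ⟨fun h4 => h3 ?_, mo_mkd.2 (hMM ha)⟩⟩)
    obtain ⟨c, rfl⟩ := e4 x hx
    rw [Finset.mul_sum, Finset.sum_mul]
    refine Finset.sum_congr rfl fun i _ => ?_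
    have h5 := b.act (g' a) i
    rw [show b.π (g' a) = 1 from h4] at h5
    rw [Matrix.mul_smul, Matrix.smul_mul]
    exact congrArg _ h5

end Pool.Agent.GR.FB
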