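import Pool.Agent.Lib.MP_aa40d3_nt.FB.BraidA

/-! Moves of two fixed members do not change the set of loops around movable members. -/

namespace Pool.Agent.GR.FB

open GC

variable {H : Type} [Group H] {P : H → Prop}

/-- One restricted move. -/
inductive Mv (P : H → Prop) : List H → List H → Prop
  | here {s : Bool} {x y a c : H} {B : List H} : P x ∨ P y → Tau s x y a c →
      Mv P (x :: y :: B) (a :: c :: B)
  | cons {l l' : List H} (z : H) : Mv P l l' → Mv P (z :: l) (z :: l')

/-- Two consecutive fixed members are exchanged, after the movable members between them have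
jumped to the left. -/
inductive Sw (P : H → Prop) (s : Bool) : List H → List H → Prop
  | here {f g a c : H} {T B : List H} : ¬ P f → ¬ P g → (∀ x ∈ T, P x) → Tau s f g a c →
      Sw P s (f :: (T ++ g :: B)) ((T.map fun x => f * x * f⁻¹) ++ a :: c :: B)
  | cons {l l' : List H} (z : H) : Sw P s l l' → Sw P s (z :: l) (z :: l')

theorem Mv.app {l l' : List H} (h : Mv P l l') (A : List H) : Mv P (A ++ l) (A ++ l') := by
  induction A with
  | nil => exact h
  | cons a A ih => exact ih.cons a

theorem Sw.app {s : Bool} {l l' : List H} (h : Sw P s l l') (A : List H) :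
    Sw P s (A ++ l) (A ++ l') := by
  induction A with
  | nil => exact h
  | cons a A ih => exact ih.cons a

theorem Tau.hurM {s : Bool} {x y a c : H} (h : Tau s x y a c) (hp : P x ∨ P y) (B : List H) :
    HurM P (x :: y :: B) (a :: c :: B) := by
  cases s
  · obtain ⟨rfl, rfl⟩ := h
    exact (HurM.refl _).r0 hp rfl
  · obtain ⟨rfl, rfl⟩ := h
    exact (HurM.refl _).l0 hp rfl

theorem Mv.hurM {l l' : List H} (h : Mv P l l') : HurM P l l' := by
  induction h with
  | here hp h => exact h.hurM hp _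
  | cons z _ ih => exact ih.cons z

theorem Tau.conj {s : Bool} {x y a c : H} (h : Tau s x y a c) (f : H) :
    Tau s (f * x * f⁻¹) (f * y * f⁻¹) (f * a * f⁻¹) (f * c * f⁻¹) := by
  cases s
  · obtain ⟨rfl, rfl⟩ := h
    exact ⟨by group, rfl⟩
  · obtain ⟨rfl, rfl⟩ := h
    exact ⟨rfl, by group⟩

theorem Tau.all (hP : Cj P) {s : Bool} {x y a c : H} (h : Tau s x y a c) (hx : P x) (hy : P y) :
    P a ∧ P c := by
  cases s
  · obtain ⟨rfl, rfl⟩ := h
    exact ⟨(hP _ _).2 hy, hx⟩
  · obtain ⟨rfl, rfl⟩ := h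
    exact ⟨hy, (hP.inv _ _).2 hx⟩

/-- A move to the right of the first fixed member. -/
theorem sim_tail (hP : Cj P) {s : Bool} {f g a c : H} (hg : ¬ P g) (h : Tau s f g a c)
    {T B k : List H} (hT : ∀ x ∈ T, P x) (hm : Mv P (T ++ g :: B) k) :
    ∃ T' g' B' a' c', k = T' ++ g' :: B' ∧ ¬ P g' ∧ (∀ x ∈ T', P x) ∧ Tau s f g' a' c' ∧
      HurM P ((T.map fun x => f * x * f⁻¹) ++ a :: c :: B)
        ((T'.map fun x => f * x * f⁻¹) ++ a' :: c' :: B') := by
  induction T generalizing k with
  | nil =>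
    cases hm with
    | @here s' _ m u v B hp ht =>
      have hm : P m := hp.resolve_left hg
      cases s'
      · obtain ⟨rfl, rfl⟩ := ht
        refine ⟨[v * m * v⁻¹], v, B, a, c, rfl, hg, by simpa using (hP _ _).2 hm, h, ?_⟩
        exact (tri_c hP ((hP v m).2 hm) (by group) h B).symm hP
      · obtain ⟨rfl, rfl⟩ := ht
        obtain ⟨a', c', h'⟩ := Tau.ex s f (u⁻¹ * g * u)
        refine ⟨[u], u⁻¹ * g * u, B, a', c', rfl, fun e => hg ((hP.inv _ _).1 e),
          by simpa using hm, h', ?_⟩
        exact tri_b hP hm (by group) h' h B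
    | cons _ hm =>
      exact ⟨[], g, _, a, c, rfl, hg, by simp, h, (hm.hurM.cons c).cons a⟩
  | cons m T ih =>
    have hm0 : P m := hT m List.mem_cons_self
    have hT' : ∀ x ∈ T, P x := fun x hx => hT x (List.mem_cons_of_mem _ hx)
    generalize hk : T ++ g :: B = k₀ at hm ih
    rw [List.cons_append, hk] at hm
    cases hm with
    | @here s' _ y u v B₀ hp ht =>
      rcases T with _ | ⟨m', T⟩
      · obtain ⟨rfl, rfl⟩ := List.cons.inj hk
        cases s'
        · obtain ⟨rfl, rfl⟩ := ht
          obtain ⟨a', c', h'⟩ := Tau.ex s f (v * g * v⁻¹)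
          refine ⟨[], v * g * v⁻¹, v :: B, a', c', rfl, fun e => hg ((hP _ _).1 e), by simp, h', ?_⟩
          exact (tri_b hP hm0 rfl h h' B).symm hP
        · obtain ⟨rfl, rfl⟩ := ht
          exact ⟨[], u, (u⁻¹ * m * u) :: B, a, c, rfl, hg, by simp, h, tri_c hP hm0 rfl h B⟩
      · obtain ⟨rfl, rfl⟩ := List.cons.inj hk
        have h1 := ht.all hP hm0 (hT' _ List.mem_cons_self)
        refine ⟨u :: v :: T, g, B, a, c, rfl, hg, fun x hx => ?_, h, ?_⟩
        · rcases List.mem_cons.1 hx with rfl | hx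
          · exact h1.1
          rcases List.mem_cons.1 hx with rfl | hx
          · exact h1.2
          · exact hT' x (List.mem_cons_of_mem _ hx)
        · exact (ht.conj f).hurM (Or.inl ((hP _ _).2 hm0)) _
    | cons _ hm =>
      obtain ⟨T', g', B', a', c', rfl, h1, h2, h3, h4⟩ := ih hT' hm
      refine ⟨m :: T', g', B', a', c', rfl, h1, fun x hx => ?_, h3, h4.cons _⟩
      rcases List.mem_cons.1 hx with rfl | hx
      · exact hm0
      · exact h2 x hx

theorem sim_one (hP : Cj P) {s : Bool} {l₁ l₁' l₂ : List H} (hs : Sw P s l₁ l₁')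
    (hm : Mv P l₁ l₂) : ∃ l₂', Sw P s l₂ l₂' ∧ HurM P l₁' l₂' := by
  induction hs generalizing l₂ with
  | @here f g a c T B hf hg hT h =>
    generalize hk : T ++ g :: B = k₀ at hm
    cases hm with
    | @here s' _ y u v B₀ hp ht =>
      have hy : P y := hp.resolve_left hf
      rcases T with _ | ⟨m, T⟩
      · obtain ⟨rfl, rfl⟩ := List.cons.inj hk
        exact absurd hy hg
      obtain ⟨rfl, rfl⟩ := List.cons.inj hk
      have hT' : ∀ x ∈ T, P x := fun x hx => hT x (List.mem_cons_of_mem _ hx)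
      cases s'
      · obtain ⟨rfl, rfl⟩ := ht
        exact ⟨_, (Sw.here hf hg hT' h).cons _, HurM.refl _⟩
      · obtain ⟨rfl, rfl⟩ := ht
        obtain ⟨a', c', h'⟩ := Tau.ex s (u⁻¹ * f * u) g
        exact ⟨_, (Sw.here (fun e => hf ((hP.inv _ _).1 e)) hg hT' h').cons _,
          (tri_aT hP hy (by group) h' h T B).symm hP⟩
    | cons _ hm =>
      subst hk
      obtain ⟨T', g', B', a', c', rfl, h1, h2, h3, h4⟩ := sim_tail hP hg h hT hm
      exact ⟨_, Sw.here hf h1 h2 h3, h4⟩
  | @cons l l' z hs ih =>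
    cases hm with
    | @here s' _ y u v B₀ hp ht =>
      cases hs with
      | @here f g a c T B hf hg hT h =>
        have hz : P z := hp.resolve_right hf
        cases s'
        · obtain ⟨rfl, rfl⟩ := ht
          obtain ⟨a', c', h'⟩ := Tau.ex s (v * y * v⁻¹) g
          refine ⟨_, Sw.here (T := v :: T) (fun e => hf ((hP _ _).1 e)) hg (fun x hx => ?_) h',
            tri_aT hP hz rfl h h' T B⟩
          rcases List.mem_cons.1 hx with rfl | hx
          · exact hz
          · exact hT x hx
        · obtain ⟨rfl, rfl⟩ := ht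
          refine ⟨_, Sw.here (T := (u⁻¹ * z * u) :: T) hf hg (fun x hx => ?_) h, ?_⟩
          · rcases List.mem_cons.1 hx with rfl | hx
            · exact (hP.inv _ _).2 hz
            · exact hT x hx
          · have e : u * (u⁻¹ * z * u) * u⁻¹ = z := by group
            rw [List.map_cons, e]
            exact HurM.refl _
      | cons _ hs => exact ⟨_, (hs.cons v).cons u, ht.hurM hp _⟩
    | cons _ hm =>
      obtain ⟨l₂', h1, h2⟩ := ih hm
      exact ⟨_, h1.cons z, h2.cons z⟩

theorem sim (hP : Cj P) {s : Bool} {l₁ l₁' l₂ : List H} (hs : Sw P s l₁ l₁')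
    (hm : HurM P l₁ l₂) : ∃ l₂', Sw P s l₂ l₂' ∧ HurM P l₁' l₂' := by
  induction hm with
  | refl => exact ⟨_, hs, HurM.refl _⟩
  | left _ hp ih =>
    obtain ⟨k, h1, h2⟩ := ih
    obtain ⟨k', h3, h4⟩ := sim_one hP h1 ((Mv.here (s := true) hp ⟨rfl, rfl⟩).app _)
    exact ⟨k', h3, h2.trans h4⟩
  | right _ hp ih =>
    obtain ⟨k, h1, h2⟩ := ih
    obtain ⟨k', h3, h4⟩ := sim_one hP h1 ((Mv.here (s := false) hp ⟨rfl, rfl⟩).app _)
    exact ⟨k', h3, h2.trans h4⟩

/-- Exchanges of fixed members, followed by restricted moves. -/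
inductive Ch (P : H → Prop) (l : List H) : List H → Prop
  | base {k : List H} : HurM P l k → Ch P l k
  | step {s : Bool} {k k' : List H} : Sw P s k k' → Ch P l k' → Ch P l k

theorem Ch.sim (hP : Cj P) {l k k₂ : List H} (h : Ch P l k) (hm : HurM P k k₂) : Ch P l k₂ := by
  induction h generalizing k₂ with
  | base h => exact Ch.base (h.trans hm)
  | step hs _ ih =>
    obtain ⟨k', h1, h2⟩ := FB.sim hP hs hm
    exact Ch.step h1 (ih h2)

theorem ch_of_hur (hP : Cj P) {l k : List H} (h : Hur l k) : Ch P l k := by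
  induction h with
  | refl => exact Ch.base (HurM.refl _)
  | @left A B x y _ ih =>
    by_cases hp : P x ∨ P y
    · exact ih.sim hP (HurM.left (HurM.refl _) hp)
    · rw [not_or] at hp
      have ht : Tau false y (y⁻¹ * x * y) x y := ⟨by group, rfl⟩
      exact Ch.step ((Sw.here (T := []) hp.2 (fun e => hp.1 ((hP.inv _ _).1 e))
        (by simp) ht).app A) ih
  | @right A B x y _ ih =>
    by_cases hp : P x ∨ P y
    · exact ih.sim hP (HurM.right (HurM.refl _) hp)
    · rw [not_or] at hp
      have ht : Tau true (x * y * x⁻¹) x x y := ⟨rfl, by group⟩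
      exact Ch.step ((Sw.here (T := []) (fun e => hp.2 ((hP _ _).1 e)) hp.1
        (by simp) ht).app A) ih

theorem Sw.pre {s : Bool} {A B k : List H} (hA : ∀ a ∈ A, P a) (h : Sw P s (A ++ B) k) :
    ∃ B', k = A ++ B' := by
  induction A generalizing k with
  | nil => exact ⟨k, rfl⟩
  | cons a A ih =>
    generalize hk : A ++ B = k₀ at h ih
    rw [List.cons_append, hk] at h
    cases h with
    | here hf => exact absurd (hA _ List.mem_cons_self) hf
    | cons _ h =>
      obtain ⟨B', rfl⟩ := ih (fun x hx => hA x (List.mem_cons_of_mem _ hx)) h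
      exact ⟨B', rfl⟩

theorem Ch.pre {l A k : List H} (hA : ∀ a ∈ A, P a) (h : Ch P l k) :
    ∀ B, k = A ++ B → ∃ B', HurM P l (A ++ B') := by
  induction h with
  | base h => exact fun B e => ⟨B, e ▸ h⟩
  | step hs _ ih =>
    rintro B rfl
    obtain ⟨B', e⟩ := hs.pre hA
    exact ih B' e

/-- A movable initial segment that is reached by arbitrary moves is reached by restricted moves. -/
theorem hurM_of_hur (hP : Cj P) {l A B : List H} (h : Hur l (A ++ B)) (hA : ∀ a ∈ A, P a) :
    ∃ B', HurM P l (A ++ B') :=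
  (ch_of_hur hP h).pre hA B rfl

theorem finP_of_finM (hP : Cj P) {Q : H → Prop} {l : List H} (h : FinM P Q l) : FinP P Q l :=
  fun A _ h' hA => (hurM_of_hur hP h' hA).elim fun B' h'' => h A B' h'' hA

end Pool.Agent.GR.FB
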