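import Pool.Agent.Lib.MP_aa40d3_nt.FB.Defs

/-! Restricted moves: general properties and identities for three members. -/

namespace Pool.Agent.GR.FB

open GC

variable {H : Type} [Group H] {P : H → Prop} {l l' l'' : List H}

theorem HurM.trans (h : HurM P l l') (h' : HurM P l' l'') : HurM P l l'' := by
  induction h' with
  | refl => exact h
  | left _ hp ih => exact HurM.left ih hp
  | right _ hp ih => exact HurM.right ih hp

theorem HurM.hur (h : HurM P l l') : Hur l l' := by
  induction h with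
  | refl => exact Hur.refl _
  | left _ _ ih => exact Hur.left ih
  | right _ _ ih => exact Hur.right ih

theorem HurM.ctx (h : HurM P l l') (A B : List H) : HurM P (A ++ l ++ B) (A ++ l' ++ B) := by
  induction h with
  | refl => exact HurM.refl _
  | @left C D x y _ hp ih =>
    have e1 : A ++ (C ++ x :: y :: D) ++ B = (A ++ C) ++ x :: y :: (D ++ B) := by simp
    have e2 : A ++ (C ++ y :: (y⁻¹ * x * y) :: D) ++ B
        = (A ++ C) ++ y :: (y⁻¹ * x * y) :: (D ++ B) := by simp
    rw [e1] at ih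
    rw [e2]
    exact HurM.left ih hp
  | @right C D x y _ hp ih =>
    have e1 : A ++ (C ++ x :: y :: D) ++ B = (A ++ C) ++ x :: y :: (D ++ B) := by simp
    have e2 : A ++ (C ++ (x * y * x⁻¹) :: x :: D) ++ B
        = (A ++ C) ++ (x * y * x⁻¹) :: x :: (D ++ B) := by simp
    rw [e1] at ih
    rw [e2]
    exact HurM.right ih hp

theorem HurM.app_left (h : HurM P l l') (A : List H) : HurM P (A ++ l) (A ++ l') := by
  simpa using h.ctx A []

theorem HurM.app_right (h : HurM P l l') (B : List H) : HurM P (l ++ B) (l' ++ B) := by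
  simpa using h.ctx [] B

theorem HurM.cons (h : HurM P l l') (a : H) : HurM P (a :: l) (a :: l') := h.app_left [a]

theorem HurM.l0 {x y z : H} {B : List H} (h : HurM P l (x :: y :: B)) (hp : P x ∨ P y)
    (e : z = y⁻¹ * x * y) : HurM P l (y :: z :: B) := e ▸ HurM.left (A := []) h hp

theorem HurM.r0 {x y z : H} {B : List H} (h : HurM P l (x :: y :: B)) (hp : P x ∨ P y)
    (e : z = x * y * x⁻¹) : HurM P l (z :: x :: B) := e ▸ HurM.right (A := []) h hp

theorem HurM.l1 {w x y z : H} {B : List H} (h : HurM P l (w :: x :: y :: B)) (hp : P x ∨ P y)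
    (e : z = y⁻¹ * x * y) : HurM P l (w :: y :: z :: B) := e ▸ HurM.left (A := [w]) h hp

theorem HurM.r1 {w x y z : H} {B : List H} (h : HurM P l (w :: x :: y :: B)) (hp : P x ∨ P y)
    (e : z = x * y * x⁻¹) : HurM P l (w :: z :: x :: B) := e ▸ HurM.right (A := [w]) h hp

/-- Invariance under conjugation. -/
def Cj (P : H → Prop) : Prop := ∀ γ x, P (γ * x * γ⁻¹) ↔ P x

theorem Cj.inv (hP : Cj P) (γ x : H) : P (γ⁻¹ * x * γ) ↔ P x := by
  simpa using hP γ⁻¹ x

theorem HurM.symm (hP : Cj P) (h : HurM P l l') : HurM P l' l := by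
  induction h with
  | refl => exact HurM.refl _
  | @left C D x y _ hp ih =>
    refine HurM.trans ?_ ih
    have h1 := HurM.right (A := C) (B := D) (x := y) (y := y⁻¹ * x * y) (HurM.refl (P := P) _)
      (hp.symm.imp_right (hP.inv y x).2)
    have e : y * (y⁻¹ * x * y) * y⁻¹ = x := by group
    rwa [e] at h1
  | @right C D x y _ hp ih =>
    refine HurM.trans ?_ ih
    have h1 := HurM.left (A := C) (B := D) (x := x * y * x⁻¹) (y := x) (HurM.refl (P := P) _)
      (hp.symm.imp_left (hP x y).2)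
    have e : x⁻¹ * (x * y * x⁻¹) * x = y := by group
    rwa [e] at h1

/-- A movable member jumps to the right over a block and keeps its value. -/
theorem hurM_oneR {b : H} (hb : P b) (T B : List H) :
    HurM P (b :: (T ++ B)) ((T.map fun x => b * x * b⁻¹) ++ b :: B) := by
  induction T with
  | nil => exact HurM.refl _
  | cons t T ih =>
    exact ((HurM.refl _).r0 (Or.inl hb) rfl).trans (ih.cons (b * t * b⁻¹))

/-- One move of two neighbours, in either direction. -/
def Tau (s : Bool) (f g a c : H) : Prop :=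
  if s then a = g ∧ c = g⁻¹ * f * g else a = f * g * f⁻¹ ∧ c = f

theorem Tau.ex (s : Bool) (f g : H) : ∃ a c, Tau s f g a c := by
  cases s
  · exact ⟨f * g * f⁻¹, f, rfl, rfl⟩
  · exact ⟨g, g⁻¹ * f * g, rfl, rfl⟩

theorem tri_a (hP : Cj P) {s : Bool} {m f f' g a c a' c' : H} (hm : P m) (e : f' = m * f * m⁻¹)
    (h : Tau s f g a c) (h' : Tau s f' g a' c') (B : List H) :
    HurM P (m :: a :: c :: B) ((f' * m * f'⁻¹) :: a' :: c' :: B) := by
  cases s
  · obtain ⟨rfl, rfl⟩ := h
    obtain ⟨rfl, rfl⟩ := h'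
    exact ((((HurM.refl _).r0 (Or.inl hm) rfl).r1 (Or.inl hm) e).r1 (Or.inr hm) rfl).l0
      (Or.inr ((hP _ _).2 hm)) (by rw [e]; group)
  · obtain ⟨rfl, rfl⟩ := h
    obtain ⟨rfl, rfl⟩ := h'
    have h1 := (hP.inv a' m).2 hm
    exact ((((HurM.refl _).l0 (Or.inl hm) rfl).r1 (z := a'⁻¹ * f' * a') (Or.inl h1)
      (by rw [e]; group)).r1 (Or.inr h1) rfl).r0 (Or.inr ((hP _ _).2 h1)) (by group)

theorem tri_b (hP : Cj P) {s : Bool} {m f g g' a c a' c' : H} (hm : P m) (e : g' = m * g * m⁻¹)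
    (h : Tau s f g a c) (h' : Tau s f g' a' c') (B : List H) :
    HurM P (a' :: c' :: m :: B) ((f * m * f⁻¹) :: a :: c :: B) := by
  cases s
  · obtain ⟨rfl, rfl⟩ := h
    obtain ⟨rfl, rfl⟩ := h'
    exact ((HurM.refl _).r1 (Or.inr hm) rfl).l0 (Or.inr ((hP _ _).2 hm)) (by rw [e]; group)
  · obtain ⟨rfl, rfl⟩ := h
    obtain ⟨rfl, rfl⟩ := h'
    refine (((HurM.refl _).l1 (z := a⁻¹ * (m⁻¹ * f * m) * a) (Or.inr hm)
      (by rw [e]; group)).l0 (z := a) (Or.inr hm) (by rw [e]; group)).trans ?_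
    exact tri_a (s := true) hP hm (by group) ⟨rfl, rfl⟩ ⟨rfl, rfl⟩ B

theorem tri_c (hP : Cj P) {s : Bool} {m m' f g a c : H} (hm : P m) (e : m' = g⁻¹ * m * g)
    (h : Tau s f g a c) (B : List H) :
    HurM P ((f * m * f⁻¹) :: a :: c :: B) (a :: c :: m' :: B) := by
  have h1 := (hP f m).2 hm
  refine ((HurM.refl _).l0 (Or.inl h1) rfl).l1 (Or.inl ((hP.inv _ _).2 h1)) ?_
  cases s
  · obtain ⟨rfl, rfl⟩ := h
    rw [e]; group
  · obtain ⟨rfl, rfl⟩ := h
    rw [e]; group

/-- `tri_a` with a block of movable members in between. -/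
theorem tri_aT (hP : Cj P) {s : Bool} {m f f' g a c a' c' : H} (hm : P m) (e : f' = m * f * m⁻¹)
    (h : Tau s f g a c) (h' : Tau s f' g a' c') (T B : List H) :
    HurM P (m :: ((T.map fun x => f * x * f⁻¹) ++ a :: c :: B))
      ((f' * m * f'⁻¹) :: ((T.map fun x => f' * x * f'⁻¹) ++ a' :: c' :: B)) := by
  refine (hurM_oneR hm _ _).trans (HurM.trans ?_ ((hurM_oneR ((hP _ _).2 hm) _ _).symm hP))
  have e1 : (T.map fun x => f * x * f⁻¹).map (fun x => m * x * m⁻¹) =
      (T.map fun x => f' * x * f'⁻¹).map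
        fun x => f' * m * f'⁻¹ * x * (f' * m * f'⁻¹)⁻¹ := by
    rw [List.map_map, List.map_map]
    refine List.map_congr_left fun x _ => ?_
    simp only [Function.comp]
    rw [e]
    group
  rw [e1]
  exact (tri_a hP hm e h h' B).app_left _

end Pool.Agent.GR.FB
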