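import Pool.Agent.Lib.MP_aa40d3_nt.GD.Aff

/-! Direct images along connected coverings that are ramified at the movable points. -/

open Polynomial Matrix

namespace Pool.Agent.GR.FB

open GC

variable {n N : ℕ}

/-- As `CoverF`; the algebra is ramified at all points of `Mov`. -/
def CoverM (Mov : Finset (Fin n)) (d : ℕ) (t : Fin n → ℂ)
    (A : Fin n → Matrix (Fin N) (Fin N) ℂ) : Prop :=
  ∃ W : Subalgebra ℂ[X] (Matrix (Fin N) (Fin N) ℂ[X]), (∀ Φ ∈ W, Φ ≠ 0 → Φ.det ≠ 0) ∧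
    (∀ Φ ∈ W, dl t • Φ.map derivative - (pm t A * Φ - Φ * pm t A) ∈ W) ∧
      (∀ Φ ∈ W, ∀ Ψ ∈ W, Φ * Ψ = Ψ * Φ) ∧ Module.finrank ℂ[X] W = d ∧ ∀ i ∈ Mov, RamAt t A W i

theorem CoverM.aff {Mov : Finset (Fin n)} {d : ℕ} {t t' : Fin n → ℂ} {c b : ℂ} (hc : c ≠ 0)
    (ht : ∀ i, t i = c * t' i + b) {A : Fin n → Matrix (Fin N) (Fin N) ℂ}
    (h : CoverM Mov d t' A) : CoverM Mov d t A := by
  obtain ⟨W', hI, hW', hcm, hrk, hr⟩ := h
  have : Invertible c := invertibleOfNonzero hc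
  let φ : ℂ[X] →+* ℂ[X] := compRingHom (C c * X + C b)
  have hφ : ∀ q, φ q = q.comp (C c * X + C b) := fun q => rfl
  have hψ : ∀ q : ℂ[X], algEquivCMulXAddC c b q = φ q := fun q => by
    rw [algEquivCMulXAddC_apply, hφ, comp_eq_aeval]
  let M : Matrix (Fin N) (Fin N) ℂ[X] →+* Matrix (Fin N) (Fin N) ℂ[X] := φ.mapMatrix
  have hM : ∀ Φ x y, M Φ x y = φ (Φ x y) := fun Φ x y => rfl
  have hsm : ∀ (q : ℂ[X]) Φ, M (q • Φ) = φ q • M Φ := fun q Φ => Matrix.ext fun x y => by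
    rw [hM, Matrix.smul_apply, Matrix.smul_apply, smul_eq_mul, smul_eq_mul, map_mul, hM]
  have hs : ∀ Ψ, ∃ Φ, M Φ = Ψ := fun Ψ =>
    ⟨Ψ.map (algEquivCMulXAddC c b).symm, Matrix.ext fun x y => by
      rw [hM, Matrix.map_apply, ← hψ, AlgEquiv.apply_symm_apply]⟩
  have hi : Function.Injective M := fun Φ Ψ e => Matrix.ext fun x y =>
    (algEquivCMulXAddC c b).injective (by rw [hψ, hψ, ← hM, ← hM, e])
  have h2 : (C c : ℂ[X]) • M (pm t A) = (C c ^ n : ℂ[X]) • pm t' A :=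
    Matrix.ext fun x y => aff_pm ht A x y
  have h3 : ∀ Φ, (M Φ).map derivative = (C c : ℂ[X]) • M (Φ.map derivative) := fun Φ =>
    Matrix.ext fun x y => by
      rw [Matrix.map_apply, Matrix.smul_apply, hM, hM, Matrix.map_apply, hφ, hφ, derivative_comp,
        derivative_add, derivative_C, derivative_C_mul_X, add_zero, smul_eq_mul]
  let W : Subalgebra ℂ[X] (Matrix (Fin N) (Fin N) ℂ[X]) :=
    { W'.toSubsemiring.comap M with
      algebraMap_mem' := fun q => by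
        change M (algebraMap _ _ q) ∈ W'
        rw [Algebra.algebraMap_eq_smul_one, hsm, map_one]
        exact W'.smul_mem W'.one_mem _ }
  have hmem : ∀ Φ, Φ ∈ W ↔ M Φ ∈ W' := fun Φ => Iff.rfl
  refine ⟨W, fun Φ hΦ h4 h5 => ?_, fun Φ hΦ => ?_, fun Φ hΦ Ψ hΨ => hi ?_, ?_,
    fun i hi => ?_⟩
  · refine hI _ hΦ (fun e => h4 (hi (e.trans (map_zero M).symm))) ?_
    rw [← RingHom.map_det, h5, map_zero]
  · rw [hmem] at hΦ ⊢
    have h1 := W'.smul_mem (W'.smul_mem (hW' _ hΦ) (C c ^ n)) (C c⁻¹)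
    have e : (C c ^ n : ℂ[X]) • (dl t' • (M Φ).map derivative - (pm t' A * M Φ - M Φ * pm t' A)) =
        (C c : ℂ[X]) • M (dl t • Φ.map derivative - (pm t A * Φ - Φ * pm t A)) := by
      rw [map_sub, map_sub, map_mul, map_mul, hsm, hφ, aff_dl ht, h3, smul_sub, smul_sub, smul_sub,
        smul_sub, ← Matrix.smul_mul, ← Matrix.smul_mul (C c), ← Matrix.mul_smul,
        ← Matrix.mul_smul _ (C c), h2, smul_smul, smul_smul, smul_smul, mul_comm (C c)]
    rwa [e, smul_smul, ← map_mul, inv_mul_cancel₀ hc, map_one, one_smul] at h1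
  · rw [map_mul, map_mul]
    exact hcm _ hΦ _ hΨ
  · let j : W →+ W' :=
      { toFun := fun Φ => ⟨M Φ.1, Φ.2⟩
        map_zero' := Subtype.ext (map_zero M)
        map_add' := fun u v => Subtype.ext (map_add M u.1 v.1) }
    have hj : Function.Bijective j := ⟨fun u v e => Subtype.ext (hi (congrArg Subtype.val e)),
      fun Ψ => (hs Ψ.1).elim fun Φ e => ⟨⟨Φ, (hmem Φ).2 (e ▸ Ψ.2)⟩, Subtype.ext e⟩⟩
    rw [← hrk, Module.finrank, Module.finrank, rank_eq_of_equiv_equiv (algEquivCMulXAddC c b)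
      (AddEquiv.ofBijective j hj) (algEquivCMulXAddC c b).bijective
      fun q u => Subtype.ext ((hsm q u.1).trans (by rw [hψ]; rfl))]
  · obtain ⟨Ψ, hΨ, hΨ'⟩ := hr i hi
    obtain ⟨Θ, rfl⟩ := hs Ψ
    have e : (M Θ).map (eval (t' i)) = Θ.map (eval (t i)) := Matrix.ext fun x y => by
      rw [Matrix.map_apply, Matrix.map_apply, hM, hφ, eval_comp, ht i, eval_add, eval_mul, eval_C,
        eval_X, eval_C]
    exact ⟨Θ, hΨ, e ▸ hΨ'⟩

end Pool.Agent.GR.FB
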