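import Pool.Agent.Lib.MP_aa40d3_nt.GD.Lift

/-! Marked lists: moves of two neighbours one of which is marked. -/

namespace Pool.Agent.GR.FB

open GC

variable {H : Type} [Group H]

/-- Moves, in both directions, of two neighbours one of which has the property `P`. -/
inductive HurM (P : H → Prop) : List H → List H → Prop
  | refl (l : List H) : HurM P l l
  | left {l A B : List H} {x y : H} : HurM P l (A ++ x :: y :: B) → P x ∨ P y →
      HurM P l (A ++ y :: (y⁻¹ * x * y) :: B)
  | right {l A B : List H} {x y : H} : HurM P l (A ++ x :: y :: B) → P x ∨ P y →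
      HurM P l (A ++ (x * y * x⁻¹) :: x :: B)

/-- Products of marked initial segments, restricted moves. -/
def FinM (P Q : H → Prop) (l : List H) : Prop :=
  ∀ A B, HurM P l (A ++ B) → (∀ a ∈ A, P a) → Q A.prod

/-- Products of marked initial segments, all moves. -/
def FinP (P Q : H → Prop) (l : List H) : Prop :=
  ∀ A B, Hur l (A ++ B) → (∀ a ∈ A, P a) → Q A.prod

/-- The marks. -/
abbrev Mk : Type := Multiplicative (ZMod 2)

/-- The mark of a movable member. -/
def mv : Mk := Multiplicative.ofAdd 1

variable {G : Type} [Group G]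

/-- A movable member. -/
def Mo (x : G × Mk) : Prop := x.2 = mv

theorem mo_conj (γ x : G × Mk) : Mo (γ * x * γ⁻¹) ↔ Mo x := by
  unfold Mo
  rw [Prod.snd_mul, Prod.snd_mul, Prod.snd_inv, mul_comm γ.2, mul_inv_cancel_right]

theorem mv_ne : (1 : Mk) ≠ mv := by decide

theorem mv_sq : mv * mv = 1 := by decide

/-- All members and all loops around movable members have finite order. -/
def FinQ (l : List (G × Mk)) : Prop :=
  (∀ x ∈ l, IsOfFinOrder x.1) ∧ FinP Mo (fun x => IsOfFinOrder x.1) l

open Classical in
/-- The number of movable members that move some sheet. -/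
noncomputable def cntP {d : ℕ} (b : BS G d) (l : List (G × Mk)) : ℕ :=
  l.countP fun x => b.π x.1 ≠ 1 ∧ Mo x

end Pool.Agent.GR.FB
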