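import Pool.Agent.Lib.MP_aa40d3_nt.GE.Stmt

/-! Definition used in the statement: places with a given order. -/

namespace Pool.Agent.GR.FB

open Pool.Agent.Lib.MP_a01f70_lc.QQ

variable {F : Type} [Field F] [Algebra ℂ F]

/-- `z - c` has order `e` at `m` different places outside `Σ` -/
def Fib (Sg : Finset (Place ℂ F)) (z : F) (c : ℂ) (e : ℤ) (m : ℕ) : Prop :=
  ∃ q : Fin m → Place ℂ F, Function.Injective q ∧
    ∀ j, q j ∉ Sg ∧ (q j).ord (z - algebraMap ℂ F c) = e

end Pool.Agent.GR.FB
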