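import Pool.Agent.Lib.MP_aa40d3_nt.FB.Main
import Pool.Agent.Lib.MP_aa40d3_nt.FB.Stmt
import Pool.Agent.Lib.MP_aa40d3_nt.GE.Final

/-! Systems on a curve with a simple covering that has many free branch points. -/

open Polynomial
open scoped Polynomial.Bivariate IntermediateField

namespace Pool.Agent.GR.FB

open Pool.Agent.GR.CV Pool.Agent.GR.GE
open Pool.Agent.Lib.MP_a01f70_lc.QQ (Place)

theorem tr_of_rank {F : Type} [Field F] [Algebra ℂ F] [IsFF F] {z : F}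
    (hz : 0 < Module.finrank ℂ⟮z⟯ F) : Transcendental ℂ z := fun h => by
  obtain ⟨t, ht, -⟩ := IsFF.ex (F := F)
  have : FiniteDimensional ℂ⟮z⟯ F := Module.finite_of_finrank_pos hz
  have := IntermediateField.adjoin.finiteDimensional h.isIntegral
  have := Module.Finite.trans (R := ℂ) ℂ⟮z⟯ F
  exact ht (Algebra.IsAlgebraic.isAlgebraic t)

theorem Fib.pls0 {F : Type} [Field F] [Algebra ℂ F] {Sg : Finset (Place ℂ F)} {z : F} {e : ℤ}
    {m : ℕ} : Fib Sg z 0 e m ↔ Pls Sg z e m := by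
  rw [Fib, map_zero, sub_zero, Pls]

theorem final12 (r : ℕ) (hr : 1 ≤ r) : ∃ k : ℕ, ∀ (R : Type) [CommRing R] [Algebra.FiniteType ℤ R]
    (ι ψ : R →+* ℂ) (S : CV.Sys R r) (F : Type) [Field F] [Algebra ℂ F] (x y f : F)
    (Sg : Finset (Place ℂ F)) (d n : ℕ) (t : Fin n → ℂ) (M : Finset (Fin n)),
    RingHom.ker ι ≤ RingHom.ker ψ → S.P.Monic →
    Irreducible (S.map ι).P → Irreducible (S.map ψ).P → (S.map ψ).D ≠ 0 →
    Transcendental ℂ x → ℂ⟮x, y⟯ = ⊤ → aevalAeval x y (S.map ι).P = 0 →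
    Module.finrank ℂ⟮f⟯ F = d → r + 2 ≤ d → Function.Injective t → 2 * d + k ≤ M.card →
    (AlgebraicIndependent (IntermediateField.adjoin ℚ {c : ℂ | ∃ j, j ∉ M ∧ c = t j})
      fun i : M => t i) →
    Fib Sg f 0 (-1) d → (∀ c, c ∉ Set.range t → Fib Sg f c 1 d) →
    (∀ i, (Fib Sg f (t i) 2 1 ∧ Fib Sg f (t i) 1 (d - 2)) ∨ (i ∉ M ∧ Fib Sg f (t i) 1 (d - 1))) →
    (∀ p ∉ Sg, ∀ φ, At φ p → (S.map ι).Loc (φ x) (φ y)) →
    (∀ m : Ideal R, m.IsMaximal → (S.map (Ideal.Quotient.mk m)).Fund) → (S.map ψ).Alg := by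
  obtain ⟨k, hk⟩ := final11a r hr
  have : NeZero r := ⟨by omega⟩
  refine ⟨k, fun R _ _ ι ψ S F _ _ x y f Sg d n t M h0 hP hI hI' hD hx hxy hy hdeg hd ht hM hg
    h1 h2 h3 hL hF => SP.alg_spec ι ψ h0 S hP hI ?_ hI' hD⟩
  have hMo : GE.Model x y (S.map ι).P := ⟨hx, hxy, hP.map _, hI, hy⟩
  have : IsFF F := isFF_of_gen hx hxy hI.ne_zero hy
  have hf : Transcendental ℂ f := tr_of_rank (by omega)
  obtain ⟨w, hw, hw'⟩ := exists_int hf
  obtain ⟨P', hM'⟩ := GE.exists_model hf hw hw'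
  have hd' := hM'.deg.trans hdeg
  obtain ⟨S', E, rfl, h⟩ := exists_chg (S.map ι) hMo (d_ne h0 hD) hM'
  obtain ⟨R', _, _, ι', S₀, q1, rfl, q2⟩ := transport ι S hP h hF
  have hL' : ∀ p, p ∉ Sg → ∀ φ, At φ p → (S₀.map ι').Loc (φ f) (φ w) :=
    fun p hp φ hφ => h.loc φ (hL p hp φ hφ)
  have hb : ∀ i, Fib Sg f (t i) 2 1 ∧ Fib Sg f (t i) 1 (d - 2) → (S₀.map ι').Bra d (t i) :=
    fun i h => ⟨unr_fin hM' hL' h.2, loc_bra hM' hL' h.1⟩
  exact h.alg (hk d n R' ι' S₀ t M q1 ((q1.natDegree_map _).symm.trans hd') hd h.D' ht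
    (gen_of_indep hg) hM (fun i hi => hb i ((h3 i).resolve_right fun h => h.1 hi))
    (fun i _ => (h3 i).imp (hb i) fun h => unr_fin hM' hL' h.2)
    (fun c hc => unr_fin hM' hL' (h2 c hc)) (unr_inf hM' hL' (Fib.pls0.1 h1)) hM'.irr q2)

theorem indep_rest {n : ℕ} {t : Fin n → ℂ} (h : AlgebraicIndependent ℚ t) (M : Finset (Fin n)) :
    AlgebraicIndependent (IntermediateField.adjoin ℚ {c : ℂ | ∃ j, j ∉ M ∧ c = t j})
      fun i : M => t i := by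
  have e : {c : ℂ | ∃ j, j ∉ M ∧ c = t j} = t '' (M : Set (Fin n))ᶜ :=
    Set.ext fun c => ⟨fun ⟨j, h1, h2⟩ => ⟨j, h1, h2.symm⟩, fun ⟨j, h1, h2⟩ => ⟨j, h1, h2.symm⟩⟩
  rw [e, IntermediateField.algebraicIndependent_adjoin_iff]
  exact h.adjoin_of_disjoint (t := (M : Set (Fin n))) disjoint_compl_left

end Pool.Agent.GR.FB
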