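import Pool.Agent.Lib.MP_aa40d3_nt.FB.Braid
import Pool.Agent.Lib.MP_aa40d3_nt.GC.Link

/-! States and restricted moves on marked lists. -/

namespace Pool.Agent.GR.FB

open GC

variable {G : Type} [Group G] {n : ℕ} {Mov : Finset (Fin n)} {L0 : List (Fin n)} {g : Fin n → G}

/-- The marked tuple. -/
def mkd (Mov : Finset (Fin n)) (g : Fin n → G) (a : Fin n) : G × Mk :=
  (g a, if a ∈ Mov then mv else 1)

omit [Group G] in
theorem mo_mkd {a : Fin n} : Mo (mkd Mov g a) ↔ a ∈ Mov := by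
  unfold Mo mkd
  by_cases h : a ∈ Mov
  · simp [h]
  · simp only [h, if_false, iff_false]
    exact mv_ne

/-- The loops around two neighbours, one of which is movable, have finite order. -/
def PairF (Mov : Finset (Fin n)) (L0 : List (Fin n)) (g : Fin n → G) : Prop :=
  ∀ L₁ L₂ a c h, St Mov L0 g (L₁ ++ a :: c :: L₂) h → (a ∈ Mov ∨ c ∈ Mov) →
    IsOfFinOrder (h a * h c)

theorem st_left' {L₁ L₂ : List (Fin n)} {a c : Fin n} {h : Fin n → G}
    (hs : St Mov L0 g (L₁ ++ a :: c :: L₂) h) (hm : a ∈ Mov ∨ c ∈ Mov) :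
    ∃ h', St Mov L0 g (L₁ ++ c :: a :: L₂) h' ∧ h' a = (h c)⁻¹ * h a * h c ∧
      ∀ e, e ≠ a → h' e = h e := by
  refine ⟨mvT h c [a].toFinset, ?_, if_pos (by simp), fun e he => if_neg (by simpa using he)⟩
  simpa using St.move (L₁ := L₁) (T := [a]) (L₂ := L₂) (i := c) (by simpa using hs)
    (hm.symm.imp_right fun H => by simpa using H)

theorem st_right' (h0 : L0.Nodup) (hf : PairF Mov L0 g)
    {L₁ L₂ : List (Fin n)} {a c : Fin n} {h : Fin n → G}
    (hs : St Mov L0 g (L₁ ++ a :: c :: L₂) h) (hm : a ∈ Mov ∨ c ∈ Mov) :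
    ∃ h', St Mov L0 g (L₁ ++ c :: a :: L₂) h' ∧ h' c = h a * h c * (h a)⁻¹ ∧
      ∀ e, e ≠ c → h' e = h e := by
  have hnd := hs.perm.nodup_iff.2 h0
  have hac : a ≠ c := fun e =>
    (List.nodup_cons.1 (List.nodup_append.1 hnd).2.1).1 (e ▸ List.mem_cons_self)
  obtain ⟨u, hu⟩ : ∃ u, u = h a * h c := ⟨_, rfl⟩
  have fin : IsOfFinOrder u := hu ▸ hf L₁ L₂ a c h hs hm
  have it : ∀ k : ℕ, ∃ h', St Mov L0 g (L₁ ++ a :: c :: L₂) h' ∧
      h' a = (u ^ k)⁻¹ * h a * u ^ k ∧ h' c = (u ^ k)⁻¹ * h c * u ^ k ∧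
        ∀ e, e ≠ a → e ≠ c → h' e = h e := fun k => by
    induction k with
    | zero => exact ⟨h, hs, by simp, by simp, fun _ _ _ => rfl⟩
    | succ k ih =>
      obtain ⟨h₁, s1, a1, c1, e1⟩ := ih
      obtain ⟨h₂, s2, a2, e2⟩ := st_left' s1 hm
      obtain ⟨h₃, s3, c3, e3⟩ := st_left' s2 hm.symm
      have m : h₁ a * h₁ c = u := by
        rw [a1, c1]
        calc (u ^ k)⁻¹ * h a * u ^ k * ((u ^ k)⁻¹ * h c * u ^ k)
            = (u ^ k)⁻¹ * (h a * h c) * u ^ k := by group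
          _ = u := by rw [← hu]; group
      refine ⟨h₃, s3, ?_, ?_, fun e n1 n2 => by rw [e3 e n2, e2 e n1, e1 e n1 n2]⟩
      · calc h₃ a = (h₁ a * h₁ c)⁻¹ * h₁ a * (h₁ a * h₁ c) := by rw [e3 a hac, a2]; group
          _ = _ := by rw [m, a1]; group
      · calc h₃ c = (h₁ a * h₁ c)⁻¹ * h₁ c * (h₁ a * h₁ c) := by
              rw [c3, a2, e2 c hac.symm]; group
          _ = _ := by rw [m, c1]; group
  obtain ⟨N, N0, hN⟩ := fin.exists_pow_eq_one
  obtain ⟨k, rfl⟩ := Nat.exists_eq_succ_of_ne_zero N0.ne'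
  have hk : u ^ k = u⁻¹ := eq_inv_of_mul_eq_one_left (by rw [← pow_succ]; exact hN)
  obtain ⟨h₁, s1, a1, c1, e1⟩ := it k
  obtain ⟨h₂, s2, a2, e2⟩ := st_left' s1 hm
  rw [hk, hu] at a1 c1
  refine ⟨h₂, s2, by rw [e2 c hac.symm, c1]; group, fun e n2 => ?_⟩
  by_cases n1 : e = a
  · rw [n1, a2, a1, c1]; group
  · rw [e2 e n1, e1 e n1 n2]

omit [Group G] in
theorem mkd_congr {h h' : Fin n → G} {a : Fin n} (e : h' a = h a) : mkd Mov h' a = mkd Mov h a := by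
  unfold mkd
  rw [e]

theorem link_stM (h0 : L0.Nodup) (hf : PairF Mov L0 g) {l : List (G × Mk)}
    (hl : HurM Mo (L0.map (mkd Mov g)) l) :
    ∃ L h, St Mov L0 g L h ∧ l = L.map (mkd Mov h) := by
  induction hl with
  | refl => exact ⟨L0, g, St.init, rfl⟩
  | left _ hp ih =>
    obtain ⟨L, h, hs, e⟩ := ih
    obtain ⟨L₁, L₂, a, c, rfl, rfl, rfl, rfl, rfl⟩ := link_split e
    obtain ⟨n1, n2, n3⟩ := link_nodup (dbl_nodup h0 hs)
    obtain ⟨h', hs', e1, e2⟩ := st_left' hs (hp.imp mo_mkd.1 mo_mkd.1)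
    refine ⟨_, h', hs', ?_⟩
    have e3 : mkd Mov h' a = (mkd Mov h c)⁻¹ * mkd Mov h a * mkd Mov h c :=
      Prod.ext e1 (by
        rw [Prod.snd_mul, Prod.snd_mul, Prod.snd_inv, mul_comm _ (mkd Mov h a).2,
          inv_mul_cancel_right]
        rfl)
    rw [List.map_append, List.map_cons, List.map_cons, e3, mkd_congr (e2 c n1.symm),
      List.map_congr_left fun e he => mkd_congr (e2 e (n2 e he).1),
      List.map_congr_left fun e he => mkd_congr (e2 e (n3 e he).1)]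
  | right _ hp ih =>
    obtain ⟨L, h, hs, e⟩ := ih
    obtain ⟨L₁, L₂, a, c, rfl, rfl, rfl, rfl, rfl⟩ := link_split e
    obtain ⟨n1, n2, n3⟩ := link_nodup (dbl_nodup h0 hs)
    obtain ⟨h', hs', e1, e2⟩ := st_right' h0 hf hs (hp.imp mo_mkd.1 mo_mkd.1)
    refine ⟨_, h', hs', ?_⟩
    have e3 : mkd Mov h' c = mkd Mov h a * mkd Mov h c * (mkd Mov h a)⁻¹ :=
      Prod.ext e1 (by
        rw [Prod.snd_mul, Prod.snd_mul, Prod.snd_inv, mul_comm (mkd Mov h a).2,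
          mul_inv_cancel_right]
        rfl)
    rw [List.map_append, List.map_cons, List.map_cons, e3, mkd_congr (e2 a n1),
      List.map_congr_left fun e he => mkd_congr (e2 e (n2 e he).2),
      List.map_congr_left fun e he => mkd_congr (e2 e (n3 e he).2)]

theorem mo_cj : Cj (Mo : G × Mk → Prop) := mo_conj

theorem prod_fst (l : List (G × Mk)) : l.prod.1 = (l.map Prod.fst).prod :=
  map_list_prod (MonoidHom.fst G Mk) l

theorem finQ_of_fin (h0 : L0.Nodup) (h1 : ∀ a, IsOfFinOrder (g a)) (hf : PairF Mov L0 g)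
    (hl : ∀ x, IsLoop Mov L0 g x → IsOfFinOrder x) : FinQ (L0.map (mkd Mov g)) := by
  refine ⟨fun x hx => ?_, finP_of_finM mo_cj fun A B h hA => ?_⟩
  · obtain ⟨a, -, rfl⟩ := List.mem_map.1 hx
    exact h1 a
  · obtain ⟨L, h', hs, e⟩ := link_stM h0 hf h
    obtain ⟨l, R, rfl, rfl, rfl⟩ := List.map_eq_append_iff.1 e.symm
    refine hl _ ⟨l, R, h', hs, fun a ha => mo_mkd.1 (hA _ (List.mem_map_of_mem ha)), ?_⟩
    rw [prod_fst, List.map_map]
    rfl

/-- Every loop of a state comes from moves of the marked list. -/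
theorem fin_of_finQ (h0 : L0.Nodup) {g' : Fin n → G × Mk} (hM : ∀ a ∈ Mov, Mo (g' a))
    (hf : FinQ (L0.map g')) (x : G) (hx : IsLoop Mov L0 (fun a => (g' a).1) x) :
    IsOfFinOrder x := by
  obtain ⟨y, ⟨l, R, h, hs, hl, rfl⟩, rfl⟩ := IsLoop.lift (MonoidHom.fst G Mk) hx
  refine hf.2 (l.map h) (R.map h) (by simpa using hur_of_st h0 hs) fun y hy => ?_
  obtain ⟨a, ha, rfl⟩ := List.mem_map.1 hy
  obtain ⟨c, hc⟩ := isConj_iff.1 (hs.conj a)
  rw [← hc]
  exact (mo_conj _ _).2 (hM a (hl a ha))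

theorem FinQ.hur {l l' : List (G × Mk)} (hf : FinQ l) (h : Hur l l') : FinQ l' :=
  ⟨h.all (P := fun x => IsOfFinOrder x.1)
    (fun γ x hx => (isConj_iff.2 ⟨γ.1, rfl⟩ : IsConj x.1 (γ * x * γ⁻¹).1).isOfFinOrder hx) hf.1,
    fun A B h' => hf.2 A B (h.trans h')⟩

theorem FinQ.left {A B : List (G × Mk)} (hf : FinQ (A ++ B)) : FinQ A :=
  ⟨fun x hx => hf.1 x (List.mem_append_left _ hx), fun C D h =>
    hf.2 C (D ++ B) (by simpa using h.app_right B)⟩

end Pool.Agent.GR.FB
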