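import Pool.Agent.Lib.MP_aa40d3_nt.NP.Path4
import Pool.Agent.Lib.MP_aa40d3_nt.MR.Link
import Pool.Agent.Lib.MP_aa40d3_nt.GC.Link
import Pool.Agent.Lib.MP_aa40d3_nt.FB.Defs

/-! Nilpotent curvature: the information on loops along moves in both directions. -/

open Polynomial Matrix Set
open scoped Matrix.Norms.Operator

namespace Pool.Agent.GR.FBN

open FB NP

variable {n r : ℕ} {Mov : Finset (Fin n)}

theorem diffU_lift {E : Type*} [NormedAddCommGroup E] [NormedSpace ℂ E] {x : E}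
    {g : E → Fin n → (Mat r)ˣ} (hg : ∀ i, DiffU (fun y => g y i) x) (v : FreeGroup (Fin n)) :
    DiffU (fun y => FreeGroup.lift (g y) v) x := by
  induction v using FreeGroup.induction_on with
  | C1 =>
    simp only [map_one]
    exact differentiableAt_const (1 : Mat r)
  | of i => simpa using hg i
  | inv_of i _ => simpa using (hg i).inv
  | mul u v hu hv => simpa using hu.mul hv

theorem lift_lift {G : Type} [Group G] (g : Fin n → G) (h : Fin n → FreeGroup (Fin n))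
    (v : FreeGroup (Fin n)) :
    FreeGroup.lift g (FreeGroup.lift h v) = FreeGroup.lift (fun i => FreeGroup.lift g (h i)) v :=
  DFunLike.congr_fun (FreeGroup.ext_hom ((FreeGroup.lift g).comp (FreeGroup.lift h)) _
    fun i => by simp) v

theorem lift_conj {G : Type} [Group G] (g : Fin n → G) (u : G) (v : FreeGroup (Fin n)) :
    IsConj (FreeGroup.lift g v) (FreeGroup.lift (fun i => u * g i * u⁻¹) v) :=
  isConj_iff.2 ⟨u, DFunLike.congr_fun (FreeGroup.ext_hom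
    ((MulAut.conj u).toMonoidHom.comp (FreeGroup.lift g)) _ fun i => by simp) v⟩

theorem lift_mvT {G : Type} [Group G] (g : Fin n → G) (i : Fin n) (S : Finset (Fin n)) :
    (fun c => FreeGroup.lift g (mvT FreeGroup.of i S c)) = mvT g i S := by
  funext c
  simp only [mvT]
  split_ifs <;> simp

theorem lower_rel {ρ : Fin n → ℝ} {L : List (Fin n)} (h : LowerL ρ L) (hall : ∀ a, a ∈ L)
    {R : Fin n → Fin n → Prop} (hR : L.Pairwise R) (a b : Fin n) (hab : ρ a < ρ b) : R a b := by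
  have h1 : L.Pairwise fun a b => (ρ a < ρ b → R a b) ∧ (ρ b < ρ a → R b a) :=
    (h.1.and hR).imp fun h => ⟨fun _ => h.2, fun h' => absurd h' h.1.not_gt⟩
  have : Std.Symm fun a b => (ρ a < ρ b → R a b) ∧ (ρ b < ρ a → R b a) := ⟨fun _ _ h => h.symm⟩
  exact (h1.forall_of_forall (fun x _ => ⟨fun h => absurd h (lt_irrefl _),
    fun h => absurd h (lt_irrefl _)⟩) (hall a) (hall b)).1 hab

theorem lower_inj {ρ : Fin n → ℝ} {L : List (Fin n)} (h : LowerL ρ L) (hall : ∀ a, a ∈ L) :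
    Function.Injective ρ := fun a b e =>
  List.inj_on_of_nodup_map (List.pairwise_map.2 (h.1.imp fun h => h.ne)) (hall a) (hall b) e

theorem exists_lower {L : List (Fin n)} (h : L.Nodup) (hall : ∀ a, a ∈ L) :
    ∃ ρ : Fin n → ℝ, LowerL ρ L := by
  refine ⟨fun a => (L.idxOf a : ℝ), ?_, fun _ _ b _ => hall b⟩
  refine List.pairwise_iff_getElem.2 fun i j hi hj hij => ?_
  exact Nat.cast_lt.2 (by rwa [h.idxOf_getElem, h.idxOf_getElem])

theorem cham_eq {ρ ρ' : Fin n → ℝ} {L : List (Fin n)} (h : LowerL ρ L) (h' : LowerL ρ' L)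
    (hall : ∀ a, a ∈ L) (m : ℕ) (H : ℝ) : Cham m ρ H = Cham m ρ' H := by
  ext w
  exact and_congr_right fun _ => ⟨fun k a b hab => k a b (lower_rel h' hall h.1 a b hab),
    fun k a b hab => k a b (lower_rel h hall h'.1 a b hab)⟩

theorem pairwise_swap {α : Type} {R : α → α → Prop} {L₁ L₂ : List α} {a c : α}
    (h : (L₁ ++ a :: c :: L₂).Pairwise R) (hR : R c a) : (L₁ ++ c :: a :: L₂).Pairwise R := by
  simp only [List.pairwise_append, List.pairwise_cons, List.mem_cons, forall_eq_or_imp] at h ⊢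
  exact ⟨h.1, ⟨⟨hR, h.2.1.2.1⟩, h.2.1.1.2, h.2.1.2.2⟩, fun x hx =>
    ⟨(h.2.2 x hx).2.1, (h.2.2 x hx).1, (h.2.2 x hx).2.2⟩⟩

variable [NeZero r]

/-- The word `v` in the monodromy tuple is quasi-unipotent on the chamber of `ρ`. -/
def Stat (M : Model4 n r Mov) (H : ℝ) (w0 : Fin n ⊕ Fin M.m → ℂ) (ρ : Fin n → ℝ)
    (v : FreeGroup (Fin n)) : Prop :=
  ∀ w, Sl Mov w w0 → w ∈ Cham M.m ρ H → ev1 w M.G ≠ 0 → ∀ θ, ev2 w θ M.F3 = 0 →
    QU (FreeGroup.lift (mon2 M.toModel2 H (w, θ)) v).val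

/-- The same for the tuple joined from the left. -/
def StatS (M : Model4 n r Mov) (κ H : ℝ) (w0 : Fin n ⊕ Fin M.m → ℂ) (ρ : Fin n → ℝ)
    (v : FreeGroup (Fin n)) : Prop :=
  ∀ w, Sl Mov w w0 → w ∈ ChamS M.m κ ρ H → ev1 w M.G ≠ 0 → ∀ θ, ev2 w θ M.F3 = 0 →
    QU (FreeGroup.lift (mos3 M.toModel2 κ H (w, θ)) v).val

variable {M : Model4 n r Mov} {κ H0 H : ℝ} {w0 : Fin n ⊕ Fin M.m → ℂ}

theorem stat_iff (hκ : 0 ≤ κ) (hZ : ∀ z ∈ M.Z, ev1 w0 z = 0) {ρ ρ' : Fin n → ℝ}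
    (hρ : Function.Injective ρ) (hρ' : Function.Injective ρ')
    (hne : ∃ w1 ∈ Cham M.m ρ' H ∩ ChamS M.m κ ρ H, Sl Mov w1 w0) (h : Fin n → FreeGroup (Fin n))
    (he : ∀ w ∈ Cham M.m ρ' H ∩ ChamS M.m κ ρ H, ∀ θ,
      vt (TS κ (fun i => w (Sum.inl i)) (M.toModel2.mA w θ)) (pS κ fun i => w (Sum.inl i)) H =
        fun c => FreeGroup.lift (mos3 M.toModel2 κ H (w, θ)) (h c)) (v : FreeGroup (Fin n)) :
    Stat M H w0 ρ' v ↔ StatS M κ H w0 ρ (FreeGroup.lift h v) := by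
  obtain ⟨w1, hw1, hs1⟩ := hne
  have key : ∀ w ∈ Cham M.m ρ' H ∩ ChamS M.m κ ρ H, ∀ θ,
      IsConj (FreeGroup.lift (mos3 M.toModel2 κ H (w, θ)) (FreeGroup.lift h v))
        (FreeGroup.lift (mon2 M.toModel2 H (w, θ)) v) := fun w hw θ => by
    obtain ⟨u, hu⟩ := vt_shear hκ (M.toModel2.mA w θ) hw.1.1 (Cham.re_injective hρ' hw.1)
    rw [he w hw θ] at hu
    rw [lift_lift, show mon2 M.toModel2 H (w, θ) = _ from hu]
    exact lift_conj _ u v
  refine ⟨fun k w hs hw hG θ hF => ?_, fun k w hs hw hG θ hF => ?_⟩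
  · exact qu_cont_open M (isOpen_ChamS κ ρ H) (convex_ChamS κ ρ H)
      ((isOpen_Cham ρ' H).inter (isOpen_ChamS κ ρ H)) inter_subset_right
      (fun y => FreeGroup.lift (mos3 M.toModel2 κ H y) (FreeGroup.lift h v))
      (fun w hw hG θ => diffU_lift (fun j => diffU_mos3 hκ M.toModel2 hρ hw hG θ j) _)
      ⟨w1, hw1, hs1.trans hs.symm⟩
      (fun w' hw' hs' hG θ hF => QU.of_isConj (key w' hw' θ) (k w' (hs'.trans hs) hw'.1 hG θ hF))
      hw (M.on_sl hs hZ) hG hF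
  · exact qu_cont_open M (isOpen_Cham ρ' H) (convex_Cham ρ' H)
      ((isOpen_Cham ρ' H).inter (isOpen_ChamS κ ρ H)) inter_subset_left
      (fun y => FreeGroup.lift (mon2 M.toModel2 H y) v)
      (fun w hw hG θ => diffU_lift (fun j => diffU_mon2 M.toModel2 hρ' hw hG θ j) _)
      ⟨w1, hw1, hs1.trans hs.symm⟩
      (fun w' hw' hs' hG θ hF =>
        QU.of_isConj (key w' hw' θ).symm (k w' (hs'.trans hs) hw'.2 hG θ hF))
      hw (M.on_sl hs hZ) hG hF

/-- The fixed points are in the order of their real parts. -/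
def OrdL (Mov : Finset (Fin n)) (t : Fin n → ℂ) (L : List (Fin n)) : Prop :=
  L.Pairwise fun a b => a ∉ Mov → b ∉ Mov → (t a).re < (t b).re

theorem stat_swap (hκ : 0 ≤ κ) (hH0 : 0 < H0) (hH : (1 + κ) * H0 ≤ H)
    (hZ : ∀ z ∈ M.Z, ev1 w0 z = 0) (hc : Core Mov κ H0 fun i => w0 (Sum.inl i))
    {L₁ L₂ : List (Fin n)} {a c : Fin n} (hall : ∀ b, b ∈ L₁ ++ a :: c :: L₂)
    (h1 : OrdL Mov (fun i => w0 (Sum.inl i)) (L₁ ++ a :: c :: L₂))
    (h2 : OrdL Mov (fun i => w0 (Sum.inl i)) (L₁ ++ c :: a :: L₂)) {ρ ρ' : Fin n → ℝ}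
    (hl : LowerL ρ (L₁ ++ a :: c :: L₂)) (hl' : LowerL ρ' (L₁ ++ c :: a :: L₂))
    (v : FreeGroup (Fin n)) :
    Stat M H w0 ρ' v ↔ Stat M H w0 ρ (FreeGroup.lift (mvT FreeGroup.of c {a}) v) := by
  have hall' : ∀ b, b ∈ L₁ ++ c :: a :: L₂ := fun b => by
    have := hall b
    simp only [List.mem_append, List.mem_cons] at this ⊢
    tauto
  obtain ⟨x, k1, k2, k3, k4⟩ := link_step (T := []) (L₁ := L₁) (L₂ := L₂) (i := c) (c := a)
    (by simpa using hl)
  have k5 : LowerL (Function.update ρ c x) (L₁ ++ c :: a :: L₂) := by simpa using k4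
  have k6 : mvS ρ c x = {a} := by simpa using k3
  have hρ := lower_inj hl hall
  have hρ' := lower_inj k5 hall'
  have ho := fun a b ha hb hab => lower_rel hl hall h1 a b hab ha hb
  have ho' := fun a b ha hb hab => lower_rel k5 hall' h2 a b hab ha hb
  have e1 := stat_iff hκ hZ hρ hρ' (exists_slice hκ hρ hρ' hH0 hH hc ho ho')
    (mvT FreeGroup.of c {a}) (fun w hw θ => by
      rw [lift_mvT, ← k6]
      exact vt_eq_mvT_vs (rectT_TS hκ _ _) (inBox_pS hκ hw.1.1) hρ k1 k2 hw.1.2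
        (ChamS.anti hκ hw.2)) v
  have e2 := stat_iff hκ hZ hρ hρ (exists_slice hκ hρ hρ hH0 hH hc ho ho) FreeGroup.of
    (fun w hw θ => by
      simp only [FreeGroup.lift_apply_of]
      exact vt_eq_vs_of_anti (rectT_TS hκ _ _) (inBox_pS hκ hw.1.1) hρ hw.1.2 (ChamS.anti hκ hw.2))
    (FreeGroup.lift (mvT FreeGroup.of c {a}) v)
  rw [FreeGroup.lift_of_apply] at e2
  rw [e2, ← e1, Stat, Stat, cham_eq hl' k5 hall']

end Pool.Agent.GR.FBN
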