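import Pool.Agent.Lib.MP_aa40d3_nt.NP.Small
import Pool.Agent.Lib.MP_aa40d3_nt.FB.Defs

/-! Few sheets; marked lists, nilpotent curvature. -/

open Matrix

namespace Pool.Agent.GR.FBN

open GC FB NP

variable {G : Type} [Group G] {m : ℕ} {σ : G →* Mt m} {l l' : List (G × Mk)}

/-- All members and all loops around movable members are quasi-unipotent. -/
def QuQ (σ : G →* Mt m) (l : List (G × Mk)) : Prop :=
  (∀ x ∈ l, QU (σ x.1)) ∧ FinP Mo (fun x => QU (σ x.1)) l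

theorem qu_conj (γ x : G) (h : QU (σ x)) : QU (σ (γ * x * γ⁻¹)) := by
  obtain ⟨E, hE, k, hk⟩ := h
  refine ⟨E, hE, k, ?_⟩
  let u : (Mt m)ˣ := σ.toHomUnits γ
  have h1 : σ (γ * x * γ⁻¹) ^ E - 1 = u.val * (σ x ^ E - 1) * (u⁻¹).val := by
    rw [← map_pow, conj_pow, map_mul, map_mul, map_pow, mul_sub, sub_mul, mul_one, Units.mul_inv]
    rfl
  rw [h1, Units.conj_pow, hk, mul_zero, zero_mul]

theorem QuQ.hur (hf : QuQ σ l) (h : Hur l l') : QuQ σ l' :=
  ⟨h.all (P := fun x => QU (σ x.1)) (fun γ x => qu_conj γ.1 x.1) hf.1,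
    fun A B h' => hf.2 A B (h.trans h')⟩

theorem QuQ.left {A B : List (G × Mk)} (hf : QuQ σ (A ++ B)) : QuQ σ A :=
  ⟨fun x hx => hf.1 x (List.mem_append_left _ hx),
    fun C D h => hf.2 C (D ++ B) (by simpa using h.app_right B)⟩

/-- A homomorphism on marked members. -/
abbrev pm1 {G' : Type} [Group G'] (φ : G →* G') : G × Mk →* G' × Mk := φ.prodMap (MonoidHom.id Mk)

theorem QuQ.map {G' : Type} [Group G'] {m' : ℕ} {σ' : G' →* Mt m'} (φ : G →* G')
    (hφ : ∀ x, QU (σ x) → QU (σ' (φ x))) (h : QuQ σ l) : QuQ σ' (l.map (pm1 φ)) := by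
  refine ⟨fun y hy => ?_, fun A B hAB hA => ?_⟩
  · obtain ⟨x, hx, rfl⟩ := List.mem_map.1 hy
    exact hφ _ (h.1 x hx)
  · obtain ⟨l', hl, he⟩ := Hur.lift (pm1 φ) hAB
    obtain ⟨A', B', rfl, rfl, rfl⟩ := List.map_eq_append_iff.1 he
    rw [← map_list_prod]
    exact hφ _ (h.2 A' B' hl fun a ha => hA _ (List.mem_map_of_mem ha))

theorem QuQ.of_map {G' : Type} [Group G'] {m' : ℕ} {σ' : G' →* Mt m'} (φ : G →* G')
    (hφ : ∀ x, QU (σ' (φ x)) → QU (σ x)) (h : QuQ σ' (l.map (pm1 φ))) : QuQ σ l := by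
  refine ⟨fun x hx => hφ _ (h.1 _ (List.mem_map_of_mem hx)), fun A B hAB hA => hφ _ ?_⟩
  have := h.2 (A.map (pm1 φ)) (B.map (pm1 φ)) (by simpa using hAB.map (pm1 φ)) fun a ha => by
    obtain ⟨x, hx, rfl⟩ := List.mem_map.1 ha
    exact hA x hx
  rwa [← map_list_prod] at this

theorem map_fst_pm1 {G' : Type} [Group G'] (φ : G →* G') (l : List (G × Mk)) :
    (l.map (pm1 φ)).map Prod.fst = (l.map Prod.fst).map φ := by
  rw [List.map_map, List.map_map]
  rfl

theorem cntP_pm1 {G' : Type} [Group G'] {d : ℕ} (φ : G →* G') {b : BS G d} {b' : BS G' d}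
    (h : ∀ x, b'.π (φ x) = b.π x) (l : List (G × Mk)) : cntP b' (l.map (pm1 φ)) = cntP b l := by
  rw [cntP, cntP, List.countP_map]
  refine List.countP_congr fun x _ => ?_
  simp only [Function.comp, decide_eq_true_eq]
  exact and_congr (by rw [← h]; rfl) Iff.rfl

theorem st_snd {n : ℕ} {Mov : Finset (Fin n)} {L0 L : List (Fin n)} {g h : Fin n → G × Mk}
    (hs : St Mov L0 g L h) (a : Fin n) : Mo (h a) ↔ Mo (g a) := by
  induction hs with
  | init => rfl
  | @move _ _ _ i h _ _ ih =>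
    rw [← ih, mvT]
    split_ifs
    · simpa using mo_conj (h i)⁻¹ (h a)
    · rfl

open Classical in
theorem finite_listP (D : ℕ) : ∃ k : ℕ, ∀ m, m ≠ 0 → m ≤ D → ∀ (G : Type) [Group G]
    (l : List (G × Mk)) (σ : G →* Mt m) (P : G → Prop), gen (l.map Prod.fst) = ⊤ →
    Function.Injective σ → IrrR σ → QuQ σ l → k ≤ l.countP (fun x => P x.1 ∧ Mo x) →
    (∀ Z : Subalgebra ℂ (Mt m), InvR σ Z → (∃ x ∈ Z, ¬ Scl x) →
      ∀ y ∈ l, P y.1 → ∃ x ∈ Z, σ y.1 * x ≠ x * σ y.1) → Finite G := by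
  choose f hf using fun m => finite_absQ (m + 1)
  refine ⟨(Finset.range D).sup f, fun m hm hD G _ l σ P hg hi hI hfin hk hZ => ?_⟩
  obtain ⟨m, rfl⟩ := Nat.exists_eq_succ_of_ne_zero hm
  have hl : (List.finRange l.length).map l.get = l := List.map_get_finRange l
  refine hf m l.length (Finset.univ.filter fun a => Mo (l.get a)) (List.finRange _) G
    (MonoidHom.fst G Mk ∘ l.get) σ (List.nodup_finRange _)
    List.mem_finRange ?_ hi hI (fun a => hfin.1 _ (List.get_mem l a)) (fun y hy => ?_)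
    fun Z h1 h2 => ⟨Finset.univ.filter fun a => P (l.get a).1 ∧ Mo (l.get a),
      fun a ha => Finset.mem_filter.2 ⟨Finset.mem_univ a, (Finset.mem_filter.1 ha).2.2⟩, ?_,
      fun a ha => hZ Z h1 h2 _ (List.get_mem l a) (Finset.mem_filter.1 ha).2.1⟩
  · rw [← hg, gen]
    congr 1
    ext x
    constructor
    · rintro ⟨a, rfl⟩
      exact List.mem_map_of_mem (List.get_mem l a)
    · intro hx
      obtain ⟨y, hy, rfl⟩ := List.mem_map.1 hx
      obtain ⟨a, rfl⟩ := List.mem_iff_get.1 hy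
      exact ⟨a, rfl⟩
  · obtain ⟨x, ⟨L, R, h, hs, hM, rfl⟩, rfl⟩ := hy.lift (MonoidHom.fst G Mk)
    have h1 := hur_of_st (List.nodup_finRange _) hs
    rw [hl, List.map_append] at h1
    refine hfin.2 _ _ h1 fun a ha => ?_
    obtain ⟨c, hc, rfl⟩ := List.mem_map.1 ha
    exact (st_snd hs c).2 (Finset.mem_filter.1 (hM c hc)).2
  · refine (Finset.le_sup (f := f) (Finset.mem_range.2 hD)).trans (hk.trans ?_)
    conv_lhs => rw [← hl, List.countP_map, List.countP_eq_length_filter,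
      ← List.toFinset_card_of_nodup ((List.nodup_finRange _).filter _)]
    refine Finset.card_le_card fun a ha => ?_
    simpa using ha

theorem finite_smallP (r : ℕ) (hr : 1 ≤ r) : ∃ k : ℕ, ∀ (d m : ℕ) (G : Type) [Group G]
    (σ : G →* Mt m) (b : BR σ d) (S : Finset (Fin d)) (l : List (G × Mk)), m ≠ 0 → m ≤ (r + 2) * r →
    S.card = r + 2 → gen (l.map Prod.fst) = ⊤ → (∀ x ∈ l.map Prod.fst, b.bs.Ok r x) → b.bs.Sup ⊤ S → b.bs.Trans ⊤ S →
    (∀ j, j ∉ S → b.e j = 0) → (∀ i ∈ S, b.Irr1 ⊤ i) → QuQ σ l → k ≤ cntP b.bs l → Finite G := by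
  obtain ⟨k, hk⟩ := finite_listP ((r + 2) * r)
  refine ⟨k, fun d m G _ σ b S l hm hD hS hg hok hs ht he hi hf hc => ?_⟩
  have : NeZero m := ⟨hm⟩
  have hcn := BS.conn hg hok ht
  by_cases h : ∃ x, b.π x = 1 ∧ (∃ c ∈ S, x ∈ b.K c) ∧ x ≠ 1
  · have hI : IrrR σ := b.irr he hcn hi fun i h1 v h2 h3 => b.fixed hs hcn hi h h1 h2 h3
    refine hk m hm hD G l σ (fun x => b.π x ≠ 1) hg b.inj hI hf
      (hc.trans_eq (List.countP_congr fun x _ => by simp only [decide_eq_true_eq]; rfl))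
      fun Z h1 ⟨z, hz, h2⟩ y hy hP => ?_
    by_contra h3
    push Not at h3
    rcases hok y.1 (List.mem_map_of_mem hy) with ⟨i, j, h4⟩ | h4
    · exact h2 (schur hI fun x => b.nc hg hr hok hS.ge he hs hcn h1 h4 h3 x z hz)
    · exact hP h4.1
  · push Not at h
    exact BS.fin_triv hg hr hok hS.ge hs hcn h

/-- The claim for matrices of size `m`. -/
def SmallP (r k m : ℕ) : Prop :=
  ∀ (d : ℕ) (G : Type) [Group G] (σ : G →* Mt m) (b : BR σ d) (S : Finset (Fin d)) (l : List (G × Mk)),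
    m ≠ 0 → S.card = r + 2 → gen (l.map Prod.fst) = ⊤ → (∀ x ∈ l.map Prod.fst, b.bs.Ok r x) → b.bs.Sup ⊤ S → b.bs.Trans ⊤ S →
    (∀ j, j ∉ S → b.e j = 0) → QuQ σ l → k ≤ cntP b.bs l → VU σ

theorem ind_quotP {r k d m : ℕ} {G : Type} [Group G] {σ : G →* Mt m} (b : BR σ d)
    {S : Finset (Fin d)} {l : List (G × Mk)} (hS : S.card = r + 2) (hg : gen (l.map Prod.fst) = ⊤)
    (hok : ∀ x ∈ l.map Prod.fst, b.bs.Ok r x) (hs : b.bs.Sup ⊤ S) (ht : b.bs.Trans ⊤ S)
    (he : ∀ j, j ∉ S → b.e j = 0) (hf : QuQ σ l) (hc : k ≤ cntP b.bs l) {E : Mt m} (hE : E * E = E)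
    (hEe : ∀ i, E * b.e i = b.e i * E) (hσ : ∀ x y, E * σ x * E * σ y * E = E * σ (x * y) * E)
    (h0 : ∀ i ∈ S, E * b.e i ≠ 0) (hm : E.rank ≠ 0) (ih : SmallP r k E.rank) :
    ∃ (N : Subgroup G) (j : ℕ), N.FiniteIndex ∧ ∀ L : List G, (∀ x ∈ L, x ∈ N) → L.length = j →
      E * (L.map fun x => σ x - 1).prod * E = 0 := by
  obtain ⟨N, hN, σ', b', P, Q, k0, k1, k2, k3, k4⟩ := compressQ b hE hEe hσ hs h0
  have hL : ∀ x, σ'.comp (QuotientGroup.mk' N) x = sandL Q P (σ x) := k1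
  have hπ : ∀ x : G, b'.bs.π (QuotientGroup.mk' N x) = b.bs.π x := k2
  have hK : ∀ (x : G) i, x ∈ b.bs.K i → QuotientGroup.mk' N x ∈ b'.bs.K i := k3
  have : VU σ' := by
    refine ih d _ σ' b' S (l.map (pm1 (QuotientGroup.mk' N))) hm hS ?_ (fun y hy => ?_)
      (fun y _ j hj => ?_) (fun u hu v hv => ?_) (fun j hj => k4 j (he j hj)) 
      (hf.map _ fun x => QU.of_lin hL) ?_
    · rw [map_fst_pm1, eq_top_iff, ← MonoidHom.range_eq_top.2 (QuotientGroup.mk'_surjective N),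
        MonoidHom.range_eq_map, ← hg, Subgroup.map_le_iff_le_comap, gen_le]
      exact fun x hx => mem_gen (List.mem_map_of_mem hx)
    · rw [map_fst_pm1] at hy
      obtain ⟨x, hx, rfl⟩ := List.mem_map.1 hy
      rcases hok x hx with ⟨u, v, e1, e2, e3, e4⟩ | ⟨e1, T, e2, e3⟩
      · exact Or.inl ⟨u, v, e1, (hπ x).trans e2, by rw [← map_mul, e3, map_one],
          fun w a1 a2 => hK x w (e4 w a1 a2)⟩
      · exact Or.inr ⟨(hπ x).trans e1, T, e2, fun w a1 => hK x w (e3 w a1)⟩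
    · obtain ⟨x, rfl⟩ := QuotientGroup.mk'_surjective N y
      exact hK x j (hs x (Subgroup.mem_top x) j hj)
    · obtain ⟨x, -, e⟩ := ht u hu v hv
      exact ⟨QuotientGroup.mk' N x, Subgroup.mem_top _, by rw [hπ]; exact e⟩
    · rwa [cntP_pm1 _ hπ]
  obtain ⟨H, j, h1, h2⟩ := this
  refine ⟨H.comap (QuotientGroup.mk' N), j, ⟨?_⟩, fun L k5 k6 => ?_⟩
  · rw [H.index_comap_of_surjective (QuotientGroup.mk'_surjective N)]
    exact h1.index_ne_zero
  · have h3 := h2 (L.map (QuotientGroup.mk' N)) (fun x hx => by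
      obtain ⟨y, hy, rfl⟩ := List.mem_map.1 hx
      exact k5 y hy) (by rw [List.length_map, k6])
    have h4 := lin_prod hL L 1
    rw [map_one, map_one, one_mul, one_mul] at h4
    rw [List.map_map, mul_one] at h3
    have h5 : Q * (L.map fun x => σ x - 1).prod * P = 0 := h4.trans h3
    rw [← k0, ← Matrix.mul_assoc, Matrix.mul_assoc P, Matrix.mul_assoc P, h5, Matrix.mul_zero,
      Matrix.zero_mul]

theorem vu_smallP (r : ℕ) (hr : 1 ≤ r) : ∃ k : ℕ, ∀ m ≤ (r + 2) * r, SmallP r k m := by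
  classical
  obtain ⟨k₁, h₁⟩ := finite_smallP r hr
  refine ⟨k₁, fun m => ?_⟩
  induction m using Nat.strong_induction_on with
  | _ m ih =>
  intro hD d G _ σ b S l hm hS hg hok hs ht he hF hc
  by_cases hI : ∀ i ∈ S, b.Irr1 ⊤ i
  · have := h₁ d m G σ b S l hm hD hS hg hok hs ht he hI hF hc
    exact VU.of_finite
  push Not at hI
  obtain ⟨i, hi, hI⟩ := hI
  obtain ⟨Q, q1, q2, q3, q4, q5⟩ := b.exists_proj ht hi hI
  have hne : ∀ E : Mt m, E * b.e i ≠ 0 → E.rank ≠ 0 := fun E h2 h3 => by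
    rw [Matrix.rank, Submodule.finrank_eq_zero, LinearMap.range_eq_bot, ← toLin'_apply',
      LinearEquiv.map_eq_zero_iff] at h3
    exact h2 (by rw [h3, zero_mul])
  have p1 : (1 - Q) * (1 - Q) = 1 - Q := by
    rw [mul_sub, sub_mul, sub_mul, q1, mul_one, mul_one, one_mul, sub_self, sub_zero]
  have p2 : ∀ x, (1 - Q) * σ x * Q = 0 := fun x => by
    rw [sub_mul, sub_mul, one_mul, q3, sub_self]
  have p4 : (1 - Q) * Q = 0 := by rw [sub_mul, q1, one_mul, sub_self]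
  have m1 : ∀ x y, Q * σ x * Q * σ y * Q = Q * σ (x * y) * Q := fun x y => by
    rw [mul_assoc (Q * σ x), mul_assoc (Q * σ x), q3, map_mul]
    simp only [mul_assoc]
  have m2 : ∀ x y, (1 - Q) * σ x * (1 - Q) * σ y * (1 - Q) = (1 - Q) * σ (x * y) * (1 - Q) :=
    fun x y => by rw [mul_sub ((1 - Q) * σ x), p2, mul_one, sub_zero, map_mul, ← mul_assoc]
  have hr1 := hne Q (q4 i hi)
  have hr2 := hne _ (q5 i hi)
  have hrk := rank_idem q1
  obtain ⟨N₁, j₁, n1, n2⟩ := ind_quotP b hS hg hok hs ht he hF hc q1 q2 m1 q4 hr1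
    (ih _ (by omega) (by omega))
  obtain ⟨N₂, j₂, n3, n4⟩ := ind_quotP b hS hg hok hs ht he hF hc p1
    (fun j => by rw [sub_mul, mul_sub, one_mul, mul_one, q2]) m2 q5 hr2 (ih _ (by omega) (by omega))
  have inv : ∀ L : List G, (1 - Q) * (L.map fun x => σ x - 1).prod * Q = 0 := fun L => by
    induction L with
    | nil => simpa using p4
    | cons x L ih =>
      have h1 : (L.map fun x => σ x - 1).prod * Q = Q * ((L.map fun x => σ x - 1).prod * Q) := by
        rw [mul_assoc, sub_mul, one_mul, sub_eq_zero] at ih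
        exact ih
      rw [List.map_cons, List.prod_cons, mul_assoc, mul_assoc, h1, ← mul_assoc, ← mul_assoc,
        mul_sub (1 - Q), sub_mul, p2, mul_one, p4, sub_zero, zero_mul]
  refine ⟨N₁ ⊓ N₂, j₁ + j₂, inferInstance, fun L k1 k2 => ?_⟩
  have a1 := n2 (L.take j₁) (fun x hx => (k1 x (List.mem_of_mem_take hx)).1)
    (by rw [List.length_take]; omega)
  have a2 := n4 (L.drop j₁) (fun x hx => (k1 x (List.mem_of_mem_drop hx)).2)
    (by rw [List.length_drop]; omega)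
  have a3 := inv (L.take j₁)
  have a4 := inv (L.drop j₁)
  rw [← L.take_append_drop j₁, List.map_append, List.prod_append, mul_one]
  generalize ((L.take j₁).map fun x => σ x - 1).prod = U at a1 a3
  generalize ((L.drop j₁).map fun x => σ x - 1).prod = V at a2 a4
  calc U * V = (Q * U * Q + (1 - Q) * U * Q) * V +
        U * ((1 - Q) * V * (1 - Q) + (1 - Q) * V * Q) := by noncomm_ring
    _ = 0 := by rw [a1, a2, a3, a4, add_zero, zero_mul, mul_zero, add_zero]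

end Pool.Agent.GR.FBN
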