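import Pool.Agent.Lib.MP_aa40d3_nt.FB.Link
import Pool.Agent.Lib.MP_aa40d3_nt.GD.Ind

/-! Marked lists: the irreducible case and the central member. -/

open Matrix

namespace Pool.Agent.GR.FB

open GC

section
variable {G D : Type} [Group G] [Group D]

/-- A homomorphism acts on marked members. -/
def pm (φ : G →* D) : G × Mk →* D × Mk := φ.prodMap (MonoidHom.id Mk)

theorem pm_fst (φ : G →* D) (x : G × Mk) : (pm φ x).1 = φ x.1 := rfl

theorem pm_mo (φ : G →* D) (x : G × Mk) : Mo (pm φ x) ↔ Mo x := Iff.rfl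

theorem map_pm_fst (φ : G →* D) (l : List (G × Mk)) :
    (l.map (pm φ)).map Prod.fst = (l.map Prod.fst).map φ := by
  rw [List.map_map, List.map_map]
  rfl

theorem FinQ.map (φ : G →* D) {l : List (G × Mk)} (h : FinQ l) : FinQ (l.map (pm φ)) := by
  refine ⟨fun y hy => ?_, fun A B hAB hA => ?_⟩
  · obtain ⟨x, hx, rfl⟩ := List.mem_map.1 hy
    exact φ.isOfFinOrder (h.1 x hx)
  · obtain ⟨l', hl, he⟩ := Hur.lift (pm φ) hAB
    obtain ⟨A', B', rfl, rfl, rfl⟩ := List.map_eq_append_iff.1 he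
    rw [← map_list_prod]
    exact φ.isOfFinOrder (h.2 A' B' hl fun a ha => hA _ (List.mem_map_of_mem ha))

theorem FinQ.of_map {φ : G →* D} (hφ : Function.Injective φ) {l : List (G × Mk)}
    (h : FinQ (l.map (pm φ))) : FinQ l := by
  refine ⟨fun x hx => hφ.isOfFinOrder_iff.1 (h.1 _ (List.mem_map_of_mem hx)),
    fun A B h' hA => ?_⟩
  have h1 := h.2 (A.map (pm φ)) (B.map (pm φ)) (by simpa using h'.map (pm φ)) fun y hy => by
    obtain ⟨x, hx, rfl⟩ := List.mem_map.1 hy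
    exact hA x hx
  rw [← map_list_prod] at h1
  exact hφ.isOfFinOrder_iff.1 h1

theorem FinQ.adj {A B : List (G × Mk)} {x y : G × Mk} (h : FinQ (A ++ x :: y :: B)) (hx : Mo x)
    (hy : Mo y) : IsOfFinOrder (x.1 * y.1) := by
  have h1 := (hur_blockL A [x, y]).app_right B
  have h2 := h.2 [x, y] ((A.map fun t => [x, y].prod⁻¹ * t * [x, y].prod) ++ B)
    (by simpa using h1) (by simp [hx, hy])
  simpa using h2

theorem gen_lift {l : List (G × Mk)} {w : G} (hw : w ∈ gen (l.map Prod.fst)) :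
    ∃ y ∈ gen l, y.1 = w := by
  have h : gen (l.map Prod.fst) ≤ (gen l).map (MonoidHom.fst G Mk) := gen_le.2 fun x hx => by
    obtain ⟨y, hy, rfl⟩ := List.mem_map.1 hx
    exact ⟨y, mem_gen hy, rfl⟩
  exact h hw

theorem hur_fst {l l' : List (G × Mk)} (h : Hur l l') :
    Hur (l.map Prod.fst) (l'.map Prod.fst) := h.map (MonoidHom.fst G Mk)

end

theorem finite_listP (D : ℕ) : ∃ k : ℕ, ∀ m, m ≠ 0 → m ≤ D → ∀ (G : Type) [Group G]
    (l : List (G × Mk)) (σ : G →* Mt m) (P : G × Mk → Bool), gen (l.map Prod.fst) = ⊤ →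
    Function.Injective σ → IrrR σ → FinQ l → (∀ x, P x → Mo x) → k ≤ l.countP P →
    (∀ Z : Subalgebra ℂ (Mt m), InvR σ Z → (∃ x ∈ Z, ¬ Scl x) →
      ∀ y ∈ l, P y → ∃ x ∈ Z, σ y.1 * x ≠ x * σ y.1) → Finite G := by
  classical
  choose f hf using fun m => GC.finite_abs (m + 1)
  refine ⟨(Finset.range D).sup f, fun m hm hD G _ l σ P hg hi hI hfin hP hk hZ => ?_⟩
  obtain ⟨m, rfl⟩ := Nat.exists_eq_succ_of_ne_zero hm
  have hl : (List.finRange l.length).map l.get = l := List.map_get_finRange l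
  refine hf m l.length (Finset.univ.filter fun a => P (l.get a)) (List.finRange _) G
    (fun a => (l.get a).1) σ (List.nodup_finRange _)
    List.mem_finRange ?_ hi hI (fun a => hfin.1 _ (List.get_mem l a))
    (fin_of_finQ (List.nodup_finRange _) (fun a ha => hP _ (Finset.mem_filter.1 ha).2)
      (hl.symm ▸ hfin)) fun Z h1 h2 =>
      ⟨Finset.univ.filter fun a => P (l.get a), Finset.Subset.refl _, ?_, fun a ha =>
        hZ Z h1 h2 _ (List.get_mem l a) (Finset.mem_filter.1 ha).2⟩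
  · rw [← hg, gen]
    congr 1
    ext x
    refine ⟨fun ⟨a, e⟩ => List.mem_map.2 ⟨_, List.get_mem l a, e⟩, fun hx => ?_⟩
    obtain ⟨y, hy, rfl⟩ := List.mem_map.1 hx
    obtain ⟨a, rfl⟩ := List.mem_iff_get.1 hy
    exact ⟨a, rfl⟩
  · refine (Finset.le_sup (f := f) (Finset.mem_range.2 hD)).trans (hk.trans ?_)
    conv_lhs => rw [← hl, List.countP_map, List.countP_eq_length_filter,
      ← List.toFinset_card_of_nodup ((List.nodup_finRange _).filter _)]
    refine Finset.card_le_card fun a ha => ?_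
    simpa using ha

theorem finite_smallP (r : ℕ) (hr : 1 ≤ r) : ∃ k : ℕ, ∀ (d m : ℕ) (G : Type) [Group G]
    (σ : G →* Mt m) (b : BR σ d) (S : Finset (Fin d)) (l : List (G × Mk)), m ≠ 0 →
    m ≤ (r + 2) * r → S.card = r + 2 → gen (l.map Prod.fst) = ⊤ →
    (∀ x ∈ l.map Prod.fst, b.bs.Ok r x) → b.bs.Sup ⊤ S → b.bs.Trans ⊤ S →
    (∀ j, j ∉ S → b.e j = 0) → (∀ i ∈ S, b.Irr1 ⊤ i) → FinQ l → k ≤ cntP b.bs l → Finite G := by
  classical
  obtain ⟨k, hk⟩ := finite_listP ((r + 2) * r)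
  refine ⟨k, fun d m G _ σ b S l hm hD hS hg hok hs ht he hi hf hc => ?_⟩
  have : NeZero m := ⟨hm⟩
  have hcn := BS.conn hg hok ht
  by_cases h : ∃ x, b.π x = 1 ∧ (∃ c ∈ S, x ∈ b.K c) ∧ x ≠ 1
  · have hI : IrrR σ := b.irr he hcn hi fun i h1 v h2 h3 => b.fixed hs hcn hi h h1 h2 h3
    refine hk m hm hD G l σ _ hg b.inj hI hf (fun x hx => (of_decide_eq_true hx).2) hc
      fun Z h1 ⟨z, hz, h2⟩ y hy hP => ?_
    by_contra h3
    push Not at h3
    rcases hok y.1 (List.mem_map_of_mem hy) with ⟨i, j, h4⟩ | h4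
    · exact h2 (schur hI fun x => b.nc hg hr hok hS.ge he hs hcn h1 h4 h3 x z hz)
    · exact (of_decide_eq_true hP).1 h4.1
  · push Not at h
    exact BS.fin_triv hg hr hok hS.ge hs hcn h

open Classical in
theorem centralP (m : ℕ) : ∃ k : ℕ, ∀ (G : Type) [Group G] (ρ : G →* Mt m) (P : G → Prop),
    ρ.ker.FiniteIndex → (∀ γ x, P x → P (γ * x * γ⁻¹)) → (∀ x, P x → x * x = 1) →
    (∀ w ∈ ρ.ker, IsOfFinOrder w → w = 1) → ∀ l : List (G × Mk), gen (l.map Prod.fst) = ⊤ →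
    FinQ l → k ≤ (l.countP fun x => P x.1 ∧ Mo x) → ∃ x, P x ∧ ∀ w ∈ ρ.ker, x * w = w * x := by
  obtain ⟨k, hk⟩ := triple m
  refine ⟨k, fun G _ ρ P hfi hc h2 ht l hg hl hn => ?_⟩
  have hsq : ∀ x : G × Mk, P x.1 → Mo x → x * x = 1 := fun x h1 h3 =>
    Prod.ext (h2 _ h1) (by rw [Prod.snd_mul, h3]; exact mv_sq)
  have hfi' : (ρ.comp (MonoidHom.fst G Mk)).ker.FiniteIndex := by
    rw [← MonoidHom.comap_ker]
    exact ⟨by
      rw [Subgroup.index_comap_of_surjective _ Prod.fst_surjective]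
      exact hfi.index_ne_zero⟩
  obtain ⟨x, y, z, R, h1, hx, hy, hz, e1, e2⟩ := hk (G × Mk) (ρ.comp (MonoidHom.fst G Mk))
    (fun x => decide (P x.1 ∧ Mo x)) hfi'
    (fun γ x h => decide_eq_true ⟨hc γ.1 x.1 (of_decide_eq_true h).1,
      (mo_conj γ x).2 (of_decide_eq_true h).2⟩)
    (fun x h => hsq x (of_decide_eq_true h).1 (of_decide_eq_true h).2) l hn
  replace hx := of_decide_eq_true hx
  replace hy := of_decide_eq_true hy
  replace hz := of_decide_eq_true hz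
  have hf := hl.hur h1
  have key : ∀ u v : G, P u → ρ u = ρ v → IsOfFinOrder (u * v) → v = u := fun u v hu e h => by
    have h3 := ht (u * v) (by rw [MonoidHom.mem_ker, map_mul, ← e, ← map_mul, h2 u hu, map_one]) h
    exact mul_left_cancel (h3.trans (h2 u hu).symm)
  obtain rfl : y = x :=
    Prod.ext (key _ _ hx.1 e1 (FinQ.adj (A := []) hf hx.2 hy.2)) (hy.2.trans hx.2.symm)
  obtain rfl : z = y :=
    Prod.ext (key _ _ hy.1 e2 (FinQ.adj (A := [y]) hf hy.2 hz.2)) (hz.2.trans hy.2.symm)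
  have h3 : gen ((z :: R).map Prod.fst) = ⊤ := by
    rw [eq_top_iff, ← hg, ← (hur_fst h1).gen, gen_le]
    intro u hu
    exact mem_gen (by simpa using hu)
  refine ⟨z.1, hx.1, fun w hw => ?_⟩
  obtain ⟨v, hv, rfl⟩ := gen_lift (h3 ▸ Subgroup.mem_top w)
  have h4 := hf.hur (circle (z :: R) hv (hsq z hx.1 hx.2))
  have h5 : z.1 = v.1⁻¹ * z.1 * v.1 := by
    refine key _ _ (by simpa using hc v.1⁻¹ z.1 hx.1) ?_
      (FinQ.adj (A := [v⁻¹ * z * v]) h4 ((mo_cj.inv v z).2 hx.2) hx.2)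
    rw [map_mul, map_mul, MonoidHom.mem_ker.1 hw, MonoidHom.mem_ker.1 (inv_mem hw), one_mul,
      mul_one]
  conv_rhs => rw [h5]
  group

end Pool.Agent.GR.FB
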